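import Pool.Agent.Helper68.DS.Goals2

set_option autoImplicit false

namespace Pool.Agent.Helper68.DS

open MvPolynomial

theorem dot3 (a b : Fin 3 → ℂ) : a ⬝ᵥ b = a 0 * b 0 + a 1 * b 1 + a 2 * b 2 := by
  simp [dotProduct, Fin.sum_univ_three]

theorem cr0 (a b : Fin 3 → ℂ) : cr a b 0 = a 1 * b 2 - a 2 * b 1 := rfl
theorem cr1 (a b : Fin 3 → ℂ) : cr a b 1 = a 2 * b 0 - a 0 * b 2 := rfl
theorem cr2 (a b : Fin 3 → ℂ) : cr a b 2 = a 0 * b 1 - a 1 * b 0 := rfl

theorem mem_of_dot (v a b : Fin 3 → ℂ) (h : cr a b ≠ 0) (hv : v ⬝ᵥ cr a b = 0) :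
    ∃ α β : ℂ, v = α • a + β • b := by
  have h3 : cr a b 0 ≠ 0 ∨ cr a b 1 ≠ 0 ∨ cr a b 2 ≠ 0 := by
    by_contra hcon
    push Not at hcon
    apply h
    ext i
    fin_cases i
    · exact hcon.1
    · exact hcon.2.1
    · exact hcon.2.2
  rw [dot3, cr0, cr1, cr2] at hv
  rw [cr0, cr1, cr2] at h3
  have key : ∀ D α β : ℂ, D ≠ 0 → (∀ i, D * v i = α * a i + β * b i) →
      ∃ α β : ℂ, v = α • a + β • b := by
    intro D α β hD h
    refine ⟨D⁻¹ * α, D⁻¹ * β, ?_⟩
    ext i
    simp only [Pi.add_apply, Pi.smul_apply, smul_eq_mul]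
    have h1 : v i = D⁻¹ * (D * v i) := by rw [← mul_assoc, inv_mul_cancel₀ hD, one_mul]
    rw [h1, h i]
    ring
  rcases h3 with h3 | h3 | h3
  · refine key _ (v 1 * b 2 - v 2 * b 1) (a 1 * v 2 - a 2 * v 1) h3 ?_
    intro i
    fin_cases i
    · simp only [Fin.zero_eta]; linear_combination hv
    · simp only [Fin.mk_one]; ring
    · simp only [Fin.reduceFinMk]; ring
  · refine key _ (v 2 * b 0 - v 0 * b 2) (a 2 * v 0 - a 0 * v 2) h3 ?_
    intro i
    fin_cases i
    · simp only [Fin.zero_eta]; ring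
    · simp only [Fin.mk_one]; linear_combination hv
    · simp only [Fin.reduceFinMk]; ring
  · refine key _ (v 0 * b 1 - v 1 * b 0) (a 0 * v 1 - a 1 * v 0) h3 ?_
    intro i
    fin_cases i
    · simp only [Fin.zero_eta]; ring
    · simp only [Fin.mk_one]; ring
    · simp only [Fin.reduceFinMk]; linear_combination hv

/-- `(ξ, c) ↦ (ξ + c_i λ_i)_i`. -/
noncomputable def Psi {k : ℕ} (lam : Fin k → Fin 3 → ℂ) :
    ((Fin 3 → ℂ) × (Fin k → ℂ)) →ₗ[ℂ] (Fin k → Fin 3 → ℂ) where
  toFun x := fun i => x.1 + x.2 i • lam i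
  map_add' x y := by
    ext i a
    simp only [Prod.fst_add, Prod.snd_add, Pi.add_apply, Pi.smul_apply, smul_eq_mul]
    ring
  map_smul' c x := by
    ext i a
    simp only [Prod.smul_fst, Prod.smul_snd, Pi.add_apply, Pi.smul_apply, smul_eq_mul,
      RingHom.id_apply]
    ring

theorem cr_smul_zero (a : Fin 3 → ℂ) (c : ℂ) : cr a (c • a) = 0 := by
  ext i
  fin_cases i <;> simp [cr] <;> ring

theorem BKER : BKER_stmt := by
  intro k hk lam hgen
  obtain ⟨h1, h2⟩ := hgen
  let o : Fin k := ⟨0, by omega⟩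
  let p : Fin k := ⟨1, by omega⟩
  have hop : o ≠ p := by
    intro h
    have := congrArg Fin.val h
    simp [o, p] at this
  have hne : ∀ i, lam i ≠ 0 := by
    intro i h0
    have : Nontrivial (Fin k) := Fin.nontrivial_iff_two_le.2 hk
    obtain ⟨j, hj⟩ := exists_ne i
    apply h1 i j hj.symm
    rw [h0]
    ext a
    fin_cases a <;> simp [cr]
  have hinj : Function.Injective (Psi lam) := by
    rw [← LinearMap.ker_eq_bot, LinearMap.ker_eq_bot']
    rintro ⟨ξ, c⟩ h
    have h3 : ∀ i, ξ + c i • lam i = 0 := fun i => congrFun h i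
    have h4 : ξ = (- c o) • lam o := by
      rw [neg_smul]; exact eq_neg_of_add_eq_zero_left (h3 o)
    have h5 : ξ = (- c p) • lam p := by
      rw [neg_smul]; exact eq_neg_of_add_eq_zero_left (h3 p)
    have h6 : c p = 0 := by
      by_contra hc
      apply h1 o p hop
      have h7 : lam p = (c p)⁻¹ • (c o • lam o) := by
        have h8 : c p • lam p = c o • lam o := by
          have := h5.symm.trans h4
          simpa [neg_smul] using this
        rw [← h8, smul_smul, inv_mul_cancel₀ hc, one_smul]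
      rw [h7, smul_smul]
      exact cr_smul_zero _ _
    have h7 : ξ = 0 := by rw [h5, h6, neg_zero, zero_smul]
    have h8 : c = 0 := by
      ext i
      have := h3 i
      rw [h7, zero_add] at this
      exact (smul_eq_zero.1 this).resolve_right (hne i)
    rw [h7, h8]; rfl
  have hrange : LinearMap.range (Psi lam) = ZV lam ∅ := by
    apply le_antisymm
    · rintro _ ⟨⟨ξ, c⟩, rfl⟩
      intro i j hij _
      show ((ξ + c i • lam i) - (ξ + c j • lam j)) ⬝ᵥ cr (lam i) (lam j) = 0
      rw [dot3, cr0, cr1, cr2]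
      simp only [Pi.sub_apply, Pi.add_apply, Pi.smul_apply, smul_eq_mul]
      ring
    · intro ζ hζ
      have hz : ∀ i j, i ≠ j → (ζ i - ζ j) ⬝ᵥ cr (lam i) (lam j) = 0 := fun i j hij =>
        hζ i j hij (Finset.notMem_empty _)
      have h3 : ∀ j, ∃ d c : ℂ, j ≠ o → ζ j - ζ o = d • lam o + c • lam j := by
        intro j
        by_cases hj : j = o
        · exact ⟨0, 0, fun h => absurd hj h⟩
        · obtain ⟨α, β, h⟩ := mem_of_dot (ζ j - ζ o) (lam j) (lam o) (h1 j o hj) (hz j o hj)
          exact ⟨β, α, fun _ => by rw [h, add_comm]⟩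
      choose d c hdc using h3
      have h4 : ∀ i j, i ≠ j → i ≠ o → j ≠ o → d i = d j := by
        intro i j hij hi hj
        have h5 := hz i j hij
        have h6 : ζ i - ζ j = (d i - d j) • lam o + (c i • lam i - c j • lam j) := by
          have e1 := hdc i hi
          have e2 := hdc j hj
          have e3 : ζ i - ζ j = (ζ i - ζ o) - (ζ j - ζ o) := by abel
          rw [e3, e1, e2, sub_smul]
          abel
        have h7 := h2 o i j hi.symm hij hj.symm
        rw [h6] at h5
        have h8 : (d i - d j) * (lam o ⬝ᵥ cr (lam i) (lam j)) = 0 := by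
          rw [← h5, dot3, dot3, cr0, cr1, cr2]
          simp only [Pi.sub_apply, Pi.add_apply, Pi.smul_apply, smul_eq_mul]
          ring
        exact sub_eq_zero.1 ((mul_eq_zero.1 h8).resolve_right h7)
      have h5 : ∀ j, j ≠ o → d j = d p := by
        intro j hj
        by_cases hjp : j = p
        · rw [hjp]
        · exact h4 j p hjp hj hop.symm
      refine ⟨(ζ o + d p • lam o, fun i => if i = o then - d p else c i), ?_⟩
      ext1 i
      show (ζ o + d p • lam o) + (if i = o then - d p else c i) • lam i = ζ i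
      by_cases hi : i = o
      · rw [if_pos hi, hi, neg_smul]
        abel
      · rw [if_neg hi]
        have := hdc i hi
        rw [h5 i hi] at this
        rw [add_assoc, ← this]
        abel
  rw [← hrange, LinearMap.finrank_range_of_inj hinj]
  simp [Module.finrank_prod]
  ring

end Pool.Agent.Helper68.DS
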