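import Pool.Agent.Helper68.DS.Goals3

set_option autoImplicit false

/-!
# MP_52cd29_ag: assembly of the induction
-/

namespace Pool.Agent.Helper68.DS

open MvPolynomial

/-- The step given by a block design. -/
theorem step_design (hC : CERT_stmt) (hW : COMMON_stmt) (hB : BLOCK_stmt) {bl : List (ℕ × ℕ)}
    {k n s : ℕ} (h : Good bl k n s) (hn : n < k) (hD : DD (k - n) s) : DD k (s + 1) := by
  obtain ⟨⟨h1, h2, h3⟩, h4, h5⟩ := h
  refine hC k n s (Uof bl) (Uof bl) (fun i => (((i : ℕ) : ℝ) : ℂ)) (inJ (Uof bl)) hn ?_ ?_ ?_ hD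
  · intro l l' _ _ _ _ hl
    have : ((l : ℝ) : ℂ) = ((l' : ℝ) : ℂ) := hl
    exact_mod_cast this
  · intro a b i hab _ _ _ hJ
    refine hW (Uof bl) (fun i => (i : ℝ)) ?_ ?_ a b i hab hJ
    · intro i hi
      exact_mod_cast hi
    · intro l l' _ _ hl
      exact_mod_cast hl
  · intro i hi1 hi2
    rw [← h4, hB bl h1 h2 h3 i hi1, h4]
    exact h5 i hi1 hi2

theorem muS_inj (l l' : ℕ) (h : muS l = muS l') : l = l' := by
  unfold muS at h
  have h1 : ((l : ℂ)) ^ 2 = (l' : ℂ) ^ 2 := add_right_cancel h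
  have h2 : l ^ 2 = l' ^ 2 := by exact_mod_cast h1
  exact Nat.pow_left_injective two_ne_zero h2

/-- The step given by a design with separate walls. -/
theorem step_sep (hC : CERT_stmt) (hS : SEPDES_stmt) {k n s : ℕ}
    (h : (k, n, s) ∈ ([(16, 13, 1), (17, 14, 1), (29, 12, 2), (41, 12, 3)] : List (ℕ × ℕ × ℕ)))
    (hn : n < k) (hD : DD (k - n) s) : DD k (s + 1) := by
  obtain ⟨Jp, h1, h2⟩ := hS k n s h
  refine hC k n s _ _ muS Jp hn ?_ h1 h2 hD
  intro l l' _ _ _ _ hl
  exact muS_inj l l' hl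

/-- The number of determinants. -/
def sK (k : ℕ) : ℕ := if k ≤ 3 then 1 else if k ≤ 17 then 2 else (k - 18) / 12 + 3

theorem main_chain (hC : CERT_stmt) (hW : COMMON_stmt) (hB : BLOCK_stmt) (hDes : DESIGN_stmt)
    (hS : SEPDES_stmt) (h3 : DD 3 1) : ∀ q, DD (12 * q + 17) (q + 2) := by
  intro q
  induction q with
  | zero => exact step_sep hC hS (k := 17) (n := 14) (s := 1) (by simp) (by norm_num) h3
  | succ q ih =>
    have e : 12 * (q + 1) + 17 = 12 * q + 29 := by ring
    rw [e]
    by_cases h0 : q = 0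
    · subst h0
      exact step_sep hC hS (k := 29) (n := 12) (s := 2) (by simp) (by norm_num) ih
    by_cases h1 : q = 1
    · subst h1
      exact step_sep hC hS (k := 41) (n := 12) (s := 3) (by simp) (by norm_num) ih
    by_cases h8 : q ≤ 8
    · refine step_design hC hW hB (hDes.2.2.1 q (by omega) h8) (by omega) ?_
      have : 12 * q + 29 - 12 = 12 * q + 17 := by omega
      rw [this]; exact ih
    · obtain ⟨r, rfl⟩ := Nat.exists_eq_add_of_le (show 9 ≤ q by omega)
      have h := hDes.2.2.2.2.2 r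
      have e1 : 12 * (9 + r) + 29 = 12 * r + 137 := by ring
      have e2 : 9 + r + 1 + 2 = (r + 11) + 1 := by ring
      rw [e1, e2]
      refine step_design hC hW hB h (by omega) ?_
      have e3 : 12 * r + 137 - 12 = 12 * (9 + r) + 17 := by omega
      have e4 : r + 11 = 9 + r + 2 := by ring
      rw [e3, e4]; exact ih

theorem DD_sK (hC : CERT_stmt) (hW : COMMON_stmt) (hB : BLOCK_stmt) (hDes : DESIGN_stmt)
    (hS : SEPDES_stmt) (hb : BASE_stmt) : ∀ k, 1 ≤ k → DD k (sK k) := by
  have hmain := main_chain hC hW hB hDes hS hb.2.2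
  intro k hk
  unfold sK
  split_ifs with h3 h17
  · obtain ⟨b1, b2, b3⟩ := hb
    interval_cases k
    · exact b1
    · exact b2
    · exact b3
  · by_cases h15 : k ≤ 15
    · refine step_design hC hW hB (hDes.1 k (by omega) h15) (by omega) ?_
      have : k - (k - 3) = 3 := by omega
      rw [this]; exact hb.2.2
    · by_cases h16 : k = 16
      · subst h16
        exact step_sep hC hS (k := 16) (n := 13) (s := 1) (by simp) (by norm_num) hb.2.2
      · have : k = 17 := by omega
        subst this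
        exact hmain 0
  · -- k ≥ 18
    obtain ⟨r, hr⟩ : ∃ r, k = 18 + r := ⟨k - 18, by omega⟩
    subst hr
    have e0 : 18 + r - 18 = r := by omega
    rw [e0]
    set q := r / 12 with hq
    set n := r % 12 + 1 with hn
    have hkn : 18 + r = 12 * q + 17 + n := by omega
    rw [hkn]
    have hbase := hmain q
    have hsub : 12 * q + 17 + n - n = 12 * q + 17 := by omega
    by_cases hn10 : n ≤ 10
    · refine step_design hC hW hB (hDes.2.2.2.1 n q (by omega) hn10) (by omega) ?_
      rw [hsub]; exact hbase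
    by_cases hn11 : n = 11
    · by_cases hq0 : q = 0
      · have h := hDes.2.1
        have e : 12 * q + 17 + n = 28 := by omega
        rw [e, hq0]
        refine step_design hC hW hB h (by norm_num) ?_
        rw [hq0] at hbase
        exact hbase
      · obtain ⟨p, hp⟩ := Nat.exists_eq_add_of_le (show 1 ≤ q by omega)
        have h := hDes.2.2.2.2.1 p
        have e : 12 * q + 17 + n = 12 * p + 40 := by omega
        have e2 : q + 3 = (p + 3) + 1 := by omega
        rw [e, e2]
        refine step_design hC hW hB h (by omega) ?_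
        have e3 : 12 * p + 40 - 11 = 12 * q + 17 := by omega
        have e4 : p + 3 = q + 2 := by omega
        rw [e3, e4]; exact hbase
    · have hn12 : n = 12 := by omega
      have h := hmain (q + 1)
      have e : 12 * q + 17 + n = 12 * (q + 1) + 17 := by omega
      rw [e]
      exact h

/-- The number in the question. -/
theorem sK_le_ceil (k : ℕ) (hk : 1 ≤ k) :
    sK k ≤ ⌈(k : ℝ) / 12 + 1 / 2 + 10 * (k : ℝ) / (12 * (k : ℝ) ^ 2 + 12)⌉₊ := by
  have hpos : (0 : ℝ) < 10 * (k : ℝ) / (12 * (k : ℝ) ^ 2 + 12) := by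
    have : (0 : ℝ) < k := by exact_mod_cast hk
    positivity
  have hk0 : (0 : ℝ) < k := by exact_mod_cast hk
  have key : ∀ N : ℕ, (N : ℝ) < (k : ℝ) / 12 + 1 / 2 + 10 * (k : ℝ) / (12 * (k : ℝ) ^ 2 + 12) →
      N + 1 ≤ ⌈(k : ℝ) / 12 + 1 / 2 + 10 * (k : ℝ) / (12 * (k : ℝ) ^ 2 + 12)⌉₊ := by
    intro N hN
    exact Nat.succ_le_of_lt (Nat.lt_ceil.2 hN)
  unfold sK
  split_ifs with h3 h17
  · apply key 0
    push_cast
    positivity
  · apply key 1
    by_cases h6 : 6 ≤ k
    · have : (6 : ℝ) ≤ k := by exact_mod_cast h6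
      push_cast
      linarith
    · have h45 : k = 4 ∨ k = 5 := by omega
      rcases h45 with h | h <;> subst h <;> norm_num
  · apply key ((k - 18) / 12 + 2)
    have h1 : 12 * ((k - 18) / 12) + 18 ≤ k := by omega
    have h2 : (12 * (((k - 18) / 12 : ℕ) : ℝ) + 18) ≤ k := by exact_mod_cast h1
    push_cast
    linarith

/-- More matrices are allowed. -/
theorem DD_mono {k s s' : ℕ} (h : s ≤ s') (hD : DD k s) : DD k s' := by
  obtain ⟨G, h1, h2⟩ := hD
  refine ⟨fun i => if hi : (i : ℕ) < s then G ⟨i, hi⟩ else 0, ?_, ?_⟩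
  · intro i a b
    beta_reduce
    split_ifs with hi
    · exact h1 _ a b
    · rw [Matrix.zero_apply]
      exact MvPolynomial.isHomogeneous_zero _ _ _
  · refine h2.trans (iSup_le fun i => ?_)
    have h3 : ((Fin.castLE h i : Fin s') : ℕ) < s := i.2
    have h4 : TT (G i) = TT ((fun i : Fin s' => if hi : (i : ℕ) < s then G ⟨i, hi⟩ else 0)
        (Fin.castLE h i)) := by
      beta_reduce
      rw [dif_pos h3]
      rfl
    rw [h4]
    exact le_iSup (fun i : Fin s' => TT (if hi : (i : ℕ) < s then G ⟨i, hi⟩ else 0))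
      (Fin.castLE h i)

/-- The final theorem from the packets. -/
theorem final (hR : RED_stmt) (hC : CERT_stmt) (hW : COMMON_stmt) (hB : BLOCK_stmt)
    (hDes : DESIGN_stmt) (hS : SEPDES_stmt) (hb : BASE_stmt) (k : ℕ) (hk : 1 ≤ k) :
    Pool.Agent.Helper74.SD.GeneralIsSumOfDets k
      ⌈(k : ℝ) / 12 + 1 / 2 + 10 * (k : ℝ) / (12 * (k : ℝ) ^ 2 + 12)⌉₊ :=
  hR k _ hk (DD_mono (sK_le_ceil k hk) (DD_sK hC hW hB hDes hS hb k hk))

end Pool.Agent.Helper68.DS
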