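import Pool.Agent.Helper68.DS.Goals2

set_option autoImplicit false

/-!
# MP_52cd29_ag: packet GRAD, the graded case of part (1) of Lemma A
-/

namespace Pool.Agent.Helper68.DS

open MvPolynomial Finset

theorem hc_X_mul (i : Fin 2) (j : ℕ) (f : MvPolynomial (Fin 2) ℂ) :
    homogeneousComponent (j + 1) (X i * f) = X i * homogeneousComponent j f := by
  classical
  ext d
  rw [coeff_homogeneousComponent, coeff_X_mul', coeff_X_mul']
  by_cases hi : i ∈ d.support
  · rw [if_pos hi, if_pos hi, coeff_homogeneousComponent]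
    have h1 : d = (d - Finsupp.single i 1) + Finsupp.single i 1 := by
      ext a
      by_cases ha : a = i
      · subst ha
        have : d a ≠ 0 := Finsupp.mem_support_iff.1 hi
        simp
        omega
      · simp [Ne.symm ha]
    have h2 : d.degree = (d - Finsupp.single i 1).degree + 1 := by
      conv_lhs => rw [h1]
      rw [map_add]
      simp
    by_cases hj : (d - Finsupp.single i 1).degree = j
    · rw [if_pos hj, if_pos (by omega)]
    · rw [if_neg hj, if_neg (by omega)]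
  · rw [if_neg hi, if_neg hi, ite_self]

/-- The polynomials whose components of degree `j ≤ k` are in `J j`. -/
noncomputable def IJ (k : ℕ) (J : ℕ → Submodule ℂ (MvPolynomial (Fin 2) ℂ)) (h0 : J 0 = ⊥)
    (hJ : ∀ j < k, ∀ g ∈ J j, X 0 * g ∈ J (j + 1) ∧ X 1 * g ∈ J (j + 1)) :
    Ideal (MvPolynomial (Fin 2) ℂ) where
  carrier := {f | ∀ j ≤ k, homogeneousComponent j f ∈ J j}
  add_mem' := fun {a b} ha hb j hj => by
    rw [map_add]; exact (J j).add_mem (ha j hj) (hb j hj)
  zero_mem' := fun j hj => by rw [map_zero]; exact (J j).zero_mem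
  smul_mem' := by
    intro p f hf
    rw [smul_eq_mul]
    induction p using MvPolynomial.induction_on with
    | C a =>
      intro j hj
      rw [homogeneousComponent_C_mul, ← smul_eq_C_mul]
      exact (J j).smul_mem a (hf j hj)
    | add p q hp hq =>
      intro j hj
      rw [add_mul, map_add]
      exact (J j).add_mem (hp j hj) (hq j hj)
    | mul_X p i hp =>
      intro j hj
      have h1 : p * X i * f = X i * (p * f) := by ring
      rw [h1]
      rcases j with _ | j
      · rw [homogeneousComponent_zero, h0, coeff_X_mul']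
        simp
      · rw [hc_X_mul]
        have h2 := hJ j (by omega) _ (hp j (by omega))
        fin_cases i
        · exact h2.1
        · exact h2.2

theorem mem_IJ_of_high {k : ℕ} {J : ℕ → Submodule ℂ (MvPolynomial (Fin 2) ℂ)} {h0 : J 0 = ⊥}
    {hJ : ∀ j < k, ∀ g ∈ J j, X 0 * g ∈ J (j + 1) ∧ X 1 * g ∈ J (j + 1)}
    {f : MvPolynomial (Fin 2) ℂ} {m : ℕ} (hf : f.IsHomogeneous m) (hm : k < m) :
    f ∈ IJ k J h0 hJ := by
  intro j hj
  have h1 : homogeneousComponent j f = 0 := by
    rw [homogeneousComponent_of_mem ((mem_homogeneousSubmodule _ _).2 hf), if_neg (by omega)]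
  rw [h1]
  exact (J j).zero_mem

theorem mem_IJ_of_mem {k : ℕ} {J : ℕ → Submodule ℂ (MvPolynomial (Fin 2) ℂ)} {h0 : J 0 = ⊥}
    {hJ : ∀ j < k, ∀ g ∈ J j, X 0 * g ∈ J (j + 1) ∧ X 1 * g ∈ J (j + 1)}
    (hH : ∀ j, J j ≤ HS 2 j) {f : MvPolynomial (Fin 2) ℂ} {i : ℕ} (hf : f ∈ J i) :
    f ∈ IJ k J h0 hJ := by
  intro j hj
  rw [homogeneousComponent_of_mem (hH i hf)]
  split_ifs with h
  · rw [h]; exact hf
  · exact (J j).zero_mem

/-- Setting `z = 1`. -/
noncomputable def dz : MvPolynomial (Fin 3) ℂ →ₐ[ℂ] MvPolynomial (Fin 2) ℂ :=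
  aeval ![X 0, X 1, 1]

theorem dz_up (g : MvPolynomial (Fin 2) ℂ) : dz (up g) = g := by
  have : dz.comp up = AlgHom.id ℂ _ := by
    apply MvPolynomial.algHom_ext
    intro i
    fin_cases i <;> simp [dz, up]
  exact congrArg (fun f => f g) this

theorem dz_lf (c : Fin 3 → ℂ) : dz (lf c) = C (c 0) * X 0 + C (c 1) * X 1 + C (c 2) := by
  simp [dz, lf, Fin.sum_univ_three, algebraMap_eq]

theorem dz_JH {k : ℕ} {J : ℕ → Submodule ℂ (MvPolynomial (Fin 2) ℂ)} {h0 : J 0 = ⊥}
    {hJ : ∀ j < k, ∀ g ∈ J j, X 0 * g ∈ J (j + 1) ∧ X 1 * g ∈ J (j + 1)}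
    (hH : ∀ j, J j ≤ HS 2 j) {f : MvPolynomial (Fin 3) ℂ} (hf : f ∈ JH k J) :
    dz f ∈ IJ k J h0 hJ := by
  unfold JH at hf
  induction hf using Submodule.iSup_induction' with
  | mem i x hx =>
    obtain ⟨g, hg, rfl⟩ := hx
    simp only [LinearMap.coe_comp, Function.comp_apply, LinearMap.mulLeft_apply,
      AlgHom.toLinearMap_apply, map_mul, map_pow, dz_up]
    have h1 : dz (X 2) = 1 := by simp [dz]
    rw [h1, one_pow, one_mul]
    exact mem_IJ_of_mem hH hg
  | zero => rw [map_zero]; exact Ideal.zero_mem _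
  | add x y _ _ hx hy => rw [map_add]; exact Ideal.add_mem _ hx hy

theorem phi_IJ {k : ℕ} {J : ℕ → Submodule ℂ (MvPolynomial (Fin 2) ℂ)} {h0 : J 0 = ⊥}
    {hJ : ∀ j < k, ∀ g ∈ J j, X 0 * g ∈ J (j + 1) ∧ X 1 * g ∈ J (j + 1)}
    {φ : MvPolynomial (Fin 2) ℂ →ₗ[ℂ] ℂ} (h1 : ∀ j ≤ k, ∀ g ∈ J j, φ g = 0)
    (h2 : ∀ j > k, ∀ g ∈ HS 2 j, φ g = 0) {f : MvPolynomial (Fin 2) ℂ}
    (hf : f ∈ IJ k J h0 hJ) : φ f = 0 := by
  rw [← sum_homogeneousComponent f, map_sum]
  apply Finset.sum_eq_zero
  intro j _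
  by_cases hj : j ≤ k
  · exact h1 j hj _ (hf j hj)
  · exact h2 j (by omega) _ (homogeneousComponent_mem j f)

theorem GRAD (hP : PSP_stmt) (hG : LEMG_stmt) : GRAD_stmt := by
  classical
  intro k hk J hH h0 hJ hsum
  obtain ⟨P, hP1, hP2, hP3⟩ := hP k (by omega) J hH h0
  obtain ⟨pt, hpt⟩ := hG k P hP2 (by omega)
  refine ⟨fun i => ![pt i 0, pt i 1, 1], ?_⟩
  set lam : Fin k → Fin 3 → ℂ := fun i => ![pt i 0, pt i 1, 1] with hlam
  -- the main claim
  have key : ∀ ξ ∈ KH lam (JH k J), (∀ i, ξ i = ξ i 2 • lam i) ∧ ∑ i, ξ i 2 = 0 := by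
    intro ξ hξ
    have hξ' : Theta lam ξ ∈ JH k J := hξ
    let I := IJ k J h0 hJ
    let p : Fin k → MvPolynomial (Fin 2) ℂ := fun l => C (pt l 0) * X 0 + C (pt l 1) * X 1
    let inv : Fin k → MvPolynomial (Fin 2) ℂ := fun l =>
      ∑ a ∈ Finset.range (k + 1), (-1) ^ a * (p l) ^ a
    let π := Ideal.Quotient.mk I
    have hp : ∀ l, (p l).IsHomogeneous 1 := fun l =>
      (isHomogeneous_C_mul_X _ _).add (isHomogeneous_C_mul_X _ _)
    have hinv : ∀ l, π (1 + p l) * π (inv l) = 1 := by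
      intro l
      have e1 : inv l = ∑ a ∈ Finset.range (k + 1), (-(p l)) ^ a := by
        refine Finset.sum_congr rfl fun a _ => ?_
        rw [← mul_pow, neg_one_mul]
      have e2 : (1 + p l) * inv l = 1 - (-(p l)) ^ (k + 1) := by
        have := mul_neg_geom_sum (-(p l)) (k + 1)
        rw [e1, ← this, sub_neg_eq_add]
      rw [← map_mul, e2, map_sub, map_one]
      have e3 : (-(p l)) ^ (k + 1) ∈ I := by
        apply mem_IJ_of_high (m := k + 1) _ (by omega)
        have := (hp l).neg.pow (k + 1)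
        simpa using this
      rw [Ideal.Quotient.eq_zero_iff_mem.2 e3, sub_zero]
    let x : Fin k → MvPolynomial (Fin 2) ℂ := fun i =>
      C (ξ i 0) * X 0 + C (ξ i 1) * X 1 + C (ξ i 2)
    have h1 : dz (Theta lam ξ) = ∑ i, x i * ∏ l ∈ Finset.univ.erase i, (1 + p l) := by
      show dz (∑ i, lf (ξ i) * Lam lam i) = _
      rw [map_sum]
      refine Finset.sum_congr rfl fun i _ => ?_
      rw [map_mul, dz_lf]
      congr 1
      unfold Lam
      rw [map_prod]
      refine Finset.prod_congr rfl fun l _ => ?_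
      rw [dz_lf]
      simp only [hlam, p, Matrix.cons_val_zero, Matrix.cons_val_one, Matrix.cons_val, map_one]
      ring
    have h2 : ∑ i, π (x i) * ∏ l ∈ Finset.univ.erase i, π (1 + p l) = 0 := by
      have := Ideal.Quotient.eq_zero_iff_mem.2 (dz_JH (h0 := h0) (hJ := hJ) hH hξ')
      rw [h1, map_sum] at this
      rw [← this]
      refine Finset.sum_congr rfl fun i _ => ?_
      rw [map_mul, map_prod]
    have h3 : ∑ i, π (x i) * π (inv i) = 0 := by
      have h4 : (∑ i, π (x i) * ∏ l ∈ Finset.univ.erase i, π (1 + p l)) *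
          ∏ l, π (inv l) = 0 := by rw [h2, zero_mul]
      rw [← h4, Finset.sum_mul]
      refine Finset.sum_congr rfl fun i _ => ?_
      rw [← Finset.mul_prod_erase Finset.univ (fun l => π (inv l)) (Finset.mem_univ i)]
      have h5 : (∏ l ∈ Finset.univ.erase i, π (1 + p l)) *
          ∏ l ∈ Finset.univ.erase i, π (inv l) = 1 := by
        rw [← Finset.prod_mul_distrib]
        exact Finset.prod_eq_one fun l _ => hinv l
      calc π (x i) * π (inv i) = π (x i) * π (inv i) * 1 := by ring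
        _ = π (x i) * π (inv i) * ((∏ l ∈ Finset.univ.erase i, π (1 + p l)) *
          ∏ l ∈ Finset.univ.erase i, π (inv l)) := by rw [h5]
        _ = _ := by ring
    let w : Fin k → Fin 2 → ℂ := fun i =>
      ![ξ i 0 - ξ i 2 * pt i 0, ξ i 1 - ξ i 2 * pt i 1]
    let y : Fin k → MvPolynomial (Fin 2) ℂ := fun i => C (w i 0) * X 0 + C (w i 1) * X 1
    have h4 : ∀ i, x i = C (ξ i 2) * (1 + p i) + y i := by
      intro i
      simp only [x, y, p, w, Matrix.cons_val_zero, Matrix.cons_val_one, map_sub, map_mul]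
      ring
    have h5 : C (∑ i, ξ i 2) + ∑ i, y i * inv i ∈ I := by
      rw [← Ideal.Quotient.eq_zero_iff_mem]
      show π _ = 0
      rw [← h3, map_add, map_sum, map_sum, map_sum, ← Finset.sum_add_distrib]
      refine Finset.sum_congr rfl fun i _ => ?_
      rw [h4, map_add, map_mul, map_mul, add_mul, mul_assoc, hinv, mul_one]
    have hy0 : constantCoeff (∑ i, y i * inv i) = 0 := by
      rw [map_sum]
      apply Finset.sum_eq_zero
      intro i _
      simp [y]
    have h6 : ∑ i, ξ i 2 = 0 := by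
      have := h5 0 (Nat.zero_le _)
      rw [homogeneousComponent_zero, h0, Submodule.mem_bot] at this
      have h7 := (C_eq_zero (σ := Fin 2) (R := ℂ)).1 this
      rw [coeff_add, coeff_C, if_pos rfl] at h7
      have h8 : coeff 0 (∑ i, y i * inv i) = 0 := hy0
      rw [h8, add_zero] at h7
      exact h7
    have h7 : ∑ i, y i * inv i ∈ I := by
      rw [h6, C_0, zero_add] at h5
      exact h5
    have hw : w = 0 := by
      apply hpt
      intro F hF
      obtain ⟨φ, hφ1, hφ2, hφ3⟩ := hP3 F hF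
      have h8 := phi_IJ hφ1 hφ2 h7
      rw [map_sum] at h8
      rw [← h8]
      refine Finset.sum_congr rfl fun i _ => ?_
      have h9 := hφ3 (pt i 0) (pt i 1) (w i 0) (w i 1)
      have h10 : (![pt i 0, pt i 1] : Fin 2 → ℂ) = pt i := by
        ext a; fin_cases a <;> rfl
      rw [h10] at h9
      exact h9
    refine ⟨fun i => ?_, h6⟩
    have h8 : w i = 0 := congrFun hw i
    have h9 := congrFun h8 0
    have h10 := congrFun h8 1
    simp only [w, Matrix.cons_val_zero, Matrix.cons_val_one, Pi.zero_apply] at h9 h10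
    ext a
    fin_cases a
    · simp only [hlam, Pi.smul_apply, smul_eq_mul]
      simpa using sub_eq_zero.1 h9
    · simp only [hlam, Pi.smul_apply, smul_eq_mul]
      simpa using sub_eq_zero.1 h10
    · simp [hlam]
  -- the dimension
  let S : (Fin k → ℂ) →ₗ[ℂ] ℂ := ∑ i, LinearMap.proj i
  have hS : ∀ c, S c = ∑ i, c i := by
    intro c
    simp [S, LinearMap.sum_apply]
  have hSsurj : Function.Surjective S := by
    intro c
    refine ⟨Pi.single ⟨0, by omega⟩ c, ?_⟩
    rw [hS]
    simp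
  have hker : Module.finrank ℂ ↥(LinearMap.ker S) = k - 1 := by
    have h1 := LinearMap.finrank_range_add_finrank_ker S
    rw [LinearMap.range_eq_top.2 hSsurj, finrank_top, Module.finrank_self,
      Module.finrank_fin_fun] at h1
    omega
  let L : (Fin k → Fin 3 → ℂ) →ₗ[ℂ] (Fin k → ℂ) :=
    { toFun := fun ξ i => ξ i 2
      map_add' := fun _ _ => rfl
      map_smul' := fun _ _ => rfl }
  let T : ↥(KH lam (JH k J)) →ₗ[ℂ] ↥(LinearMap.ker S) :=
    (L ∘ₗ (KH lam (JH k J)).subtype).codRestrict (LinearMap.ker S) (fun ξ => by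
      rw [LinearMap.mem_ker, hS]
      exact (key ξ.1 ξ.2).2)
  have hT : Function.Injective T := by
    rw [← LinearMap.ker_eq_bot, LinearMap.ker_eq_bot']
    intro ξ hξ
    apply Subtype.ext
    have h1 : L ξ.1 = 0 := congrArg Subtype.val hξ
    ext1 i
    have h2 := (key ξ.1 ξ.2).1 i
    have h3 : ξ.1 i 2 = 0 := congrFun h1 i
    rw [h3, zero_smul] at h2
    exact h2
  rw [← hker]
  exact LinearMap.finrank_le_finrank_of_injective hT

end Pool.Agent.Helper68.DS
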