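import Pool.Agent.Helper68.DS.Lema
import Pool.Agent.Helper68.DS.Final
import Pool.Agent.Helper68.DS.GRAD
import Pool.Agent.Helper6.DS.PM
import Pool.Agent.Helper6.DS.DIM
import Pool.Agent.Helper6.DS.BIDI
import Pool.Agent.Helper69.DS.SC
import Pool.Agent.Helper69.DS.RED
import Pool.Agent.Helper69.DS.LEV0
import Pool.Agent.Helper75.DS.SCK
import Pool.Agent.Helper75.DS.CLOS
import Pool.Agent.Helper75.DS.PSP
import Pool.Agent.Helper83.DS.LO
import Pool.Agent.Helper83.DS.DIV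
import Pool.Agent.Helper65.DS.BASE
import Pool.Agent.Helper86.DS.KPR
import Pool.Agent.Helper58.DS.ADJ1
import Pool.Agent.Helper58.DS.MULTI
import Pool.Agent.Helper58.DS.TRANS
import Pool.Agent.Helper9.DS.STEPLIM
import Pool.Agent.Helper20.DS.STEPGEN
import Pool.Agent.Helper93.DS.NEWOBJ
import Pool.Agent.Helper11.DS.WLI
import Pool.Agent.Helper11.DS.COMMON
import Pool.Agent.Helper61.DS.CERT
import Pool.Agent.Helper89.DS.DESC
import Pool.Agent.Helper19.DS.BLOCK
import Pool.Agent.Helper34.DS.DESIGN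
import Pool.Agent.Helper34.DS.COUNT
import Pool.Agent.Helper63.DS.SEPDES
import Pool.Agent.Helper77.DS.RNK
import Pool.Agent.Helper37.DS.LEMJ
import Pool.Agent.Helper82.DS.LEMG
import Pool.Agent.Helper72.DS.DEGEN
import Pool.Agent.Helper56.DS.STAR1
import Pool.Agent.Helper68.DS.BKER
import Pool.Agent.Helper87.DS.KEREV
import Pool.Agent.Helper87.DS.PARTZ
import Pool.Agent.Helper87.DS.STARLIM
import Pool.Agent.Helper64.DS.MINGEN
import Pool.Agent.Helper31.DS.PART
import Pool.Agent.Helper29.DS.INV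
import Pool.Agent.Helper88.DS.ADJD
import Pool.Agent.Helper88.DS.BASECH

set_option autoImplicit false

/-!
# MP_52cd29_ag: all packets together
-/

namespace Pool.Agent.Helper68.DS

theorem pm : PM_stmt := Pool.Agent.Helper6.DS.PM
theorem dim : DIM_stmt := Pool.Agent.Helper6.DS.DIM
theorem sc : SC_stmt := Pool.Agent.Helper69.DS.SC
theorem sck : SCK_stmt := Pool.Agent.Helper75.DS.SCK sc
theorem lo : LO_stmt := Pool.Agent.Helper83.DS.LO sc sck
theorem kpr : KPR_stmt := Pool.Agent.Helper86.DS.KPR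
theorem trans : TRANS_stmt := Pool.Agent.Helper58.DS.TRANS
theorem rnk : RNK_stmt := Pool.Agent.Helper77.DS.RNK pm sc
theorem clos : CLOS_stmt := Pool.Agent.Helper75.DS.CLOS pm lo dim rnk
theorem lemg : LEMG_stmt := Pool.Agent.Helper82.DS.LEMG Pool.Agent.Helper37.DS.LEMJ
theorem psp : PSP_stmt := Pool.Agent.Helper75.DS.PSP dim
theorem grad : GRAD_stmt := GRAD psp lemg
theorem degen : DEGEN_stmt := Pool.Agent.Helper72.DS.DEGEN pm sck dim trans
theorem star1 : STAR1_stmt := Pool.Agent.Helper56.DS.STAR1 clos trans grad degen dim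
theorem bker : BKER_stmt := BKER
theorem kerev : KEREV_stmt := Pool.Agent.Helper87.DS.KEREV dim
theorem mingen : MINGEN_stmt := Pool.Agent.Helper64.DS.MINGEN pm lo dim star1
theorem partz : PARTZ_stmt :=
  Pool.Agent.Helper87.DS.PARTZ Pool.Agent.Helper31.DS.PART Pool.Agent.Helper29.DS.INV bker kerev
    dim
theorem count : COUNT_stmt := Pool.Agent.Helper34.DS.COUNT bker dim
theorem starlim : STARLIM_stmt :=
  Pool.Agent.Helper87.DS.STARLIM pm sc Pool.Agent.Helper88.DS.ADJD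
    Pool.Agent.Helper88.DS.BASECH dim
theorem lemA : LEMA_stmt := LEMA dim mingen partz count starlim
theorem steplim : STEPLIM_stmt :=
  Pool.Agent.Helper9.DS.STEPLIM pm sc dim kpr Pool.Agent.Helper58.DS.ADJ1
theorem stepgen : STEPGEN_stmt := Pool.Agent.Helper20.DS.STEPGEN pm lo dim kpr lemA
theorem multi : MULTI_stmt := Pool.Agent.Helper58.DS.MULTI steplim stepgen kpr dim
theorem newobj : NEWOBJ_stmt :=
  Pool.Agent.Helper93.DS.NEWOBJ pm sc dim Pool.Agent.Helper6.DS.BIDI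
theorem cert : CERT_stmt :=
  Pool.Agent.Helper61.DS.CERT multi newobj Pool.Agent.Helper11.DS.WLI
    Pool.Agent.Helper69.DS.LEV0 Pool.Agent.Helper83.DS.DIV
theorem common : COMMON_stmt := Pool.Agent.Helper11.DS.COMMON Pool.Agent.Helper89.DS.DESC

/-- Q1 of MP_52cd29_ag. -/
theorem main (k : ℕ) (hk : 1 ≤ k) : Pool.Agent.Helper74.SD.GeneralIsSumOfDets k
    ⌈(k : ℝ) / 12 + 1 / 2 + 10 * (k : ℝ) / (12 * (k : ℝ) ^ 2 + 12)⌉₊ :=
  final Pool.Agent.Helper69.DS.RED cert common Pool.Agent.Helper19.DS.BLOCK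
    Pool.Agent.Helper34.DS.DESIGN Pool.Agent.Helper63.DS.SEPDES Pool.Agent.Helper65.DS.BASE k hk

end Pool.Agent.Helper68.DS
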