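import Mathlib

set_option autoImplicit false

/-!
# Sums of determinants of linear matrices in four variables: definitions for the plane-by-plane
induction (MP_52cd29_ag, Q1)
-/

namespace Pool.Agent.Helper68.DS

open MvPolynomial

/-- Forms of degree `k` in `n` variables. -/
noncomputable abbrev HS (n k : ℕ) : Submodule ℂ (MvPolynomial (Fin n) ℂ) :=
  homogeneousSubmodule (Fin n) ℂ k

/-- The linear form with coefficients `c`. -/
noncomputable def lf {n : ℕ} (c : Fin n → ℂ) : MvPolynomial (Fin n) ℂ := ∑ j, C (c j) * X j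

/-- A matrix of linear forms. -/
def IsLin {n : ℕ} {κ : Type} (M : Matrix κ κ (MvPolynomial (Fin n) ℂ)) : Prop :=
  ∀ a b, (M a b).IsHomogeneous 1

/-- The span of the products of a variable with an entry of the adjugate of `M` (four
variables). -/
noncomputable def TT {k : ℕ} (M : Matrix (Fin k) (Fin k) (MvPolynomial (Fin 4) ℂ)) :
    Submodule ℂ (MvPolynomial (Fin 4) ℂ) :=
  Submodule.span ℂ (Set.range fun p : Fin 4 × Fin k × Fin k => X p.1 * M.adjugate p.2.1 p.2.2)

/-- `D(k,s)`: there are `s` matrices of linear forms of size `k` such that the spaces `TT` span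
all the forms of degree `k`. -/
def DD (k s : ℕ) : Prop :=
  ∃ G : Fin s → Matrix (Fin k) (Fin k) (MvPolynomial (Fin 4) ℂ), (∀ i, IsLin (G i)) ∧
    HS 4 k ≤ ⨆ i, TT (G i)

/-! ### Curves and genericity -/

/-- A polynomial curve in a complex vector space. -/
def IsPolyMap {V : Type} [AddCommGroup V] [Module ℂ V] (f : ℂ → V) : Prop :=
  ∃ (N : ℕ) (c : ℕ → V), ∀ t, f t = ∑ n ∈ Finset.range N, t ^ n • c n

/-- A set is line-open if on every line through one of its points only finitely many points are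
outside. -/
def LineOpen {P : Type} [AddCommGroup P] [Module ℂ P] (U : Set P) : Prop :=
  ∀ p ∈ U, ∀ q : P, {t : ℂ | p + t • q ∉ U}.Finite

/-! ### The plane -/

/-- For a matrix of linear forms in three variables: the span of the products of a variable with
an entry of the first column or of the first row of the adjugate. -/
noncomputable def tauM {m : ℕ} (M : Matrix (Fin (m + 1)) (Fin (m + 1)) (MvPolynomial (Fin 3) ℂ)) :
    Submodule ℂ (MvPolynomial (Fin 3) ℂ) :=
  Submodule.span ℂ (Set.range fun p : Fin 3 × Fin (m + 1) => X p.1 * M.adjugate p.2 0) ⊔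
    Submodule.span ℂ (Set.range fun p : Fin 3 × Fin (m + 1) => X p.1 * M.adjugate 0 p.2)

/-- The linear form `x_0 - μ x_1`. -/
noncomputable def ell (μ : ℂ) : MvPolynomial (Fin 4) ℂ := X 0 - C μ * X 1

/-- Restriction to the plane `x_0 = μ x_1`. -/
noncomputable def pr (μ : ℂ) : MvPolynomial (Fin 4) ℂ →ₐ[ℂ] MvPolynomial (Fin 3) ℂ :=
  aeval ![C μ * X 0, X 0, X 1, X 2]

/-- The forms `F` of degree `k` with `(x_0 - μ x_1) F ∈ E`. -/
noncomputable def colon (E : Submodule ℂ (MvPolynomial (Fin 4) ℂ)) (k : ℕ) (μ : ℂ) :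
    Submodule ℂ (MvPolynomial (Fin 4) ℂ) :=
  E.comap (LinearMap.mulLeft ℂ (ell μ)) ⊓ HS 4 k

/-! ### Lines in the plane -/

/-- Cross product. -/
def cr (a b : Fin 3 → ℂ) : Fin 3 → ℂ :=
  ![a 1 * b 2 - a 2 * b 1, a 2 * b 0 - a 0 * b 2, a 0 * b 1 - a 1 * b 0]

/-- The product of all the linear forms except the `i`-th. -/
noncomputable def Lam {k : ℕ} (lam : Fin k → Fin 3 → ℂ) (i : Fin k) : MvPolynomial (Fin 3) ℂ :=
  ∏ l ∈ Finset.univ.erase i, lf (lam l)

/-- The product of all the linear forms except the `i`-th and the `j`-th. -/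
noncomputable def Lam2 {k : ℕ} (lam : Fin k → Fin 3 → ℂ) (i j : Fin k) :
    MvPolynomial (Fin 3) ℂ :=
  ∏ l ∈ (Finset.univ.erase i).erase j, lf (lam l)

/-- Lines in general position: distinct, and no three concurrent. -/
def Gen {k : ℕ} (lam : Fin k → Fin 3 → ℂ) : Prop :=
  (∀ i j, i ≠ j → cr (lam i) (lam j) ≠ 0) ∧
    ∀ i j l, i ≠ j → j ≠ l → i ≠ l → lam i ⬝ᵥ cr (lam j) (lam l) ≠ 0

/-- The linear map `ξ ↦ ∑ ξ_i Λ_i`. -/
noncomputable def Theta {k : ℕ} (lam : Fin k → Fin 3 → ℂ) :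
    (Fin k → Fin 3 → ℂ) →ₗ[ℂ] MvPolynomial (Fin 3) ℂ where
  toFun ξ := ∑ i, lf (ξ i) * Lam lam i
  map_add' ξ η := by
    rw [← Finset.sum_add_distrib]
    refine Finset.sum_congr rfl fun i _ => ?_
    rw [← add_mul]
    congr 1
    simp only [lf, Pi.add_apply, map_add, add_mul, Finset.sum_add_distrib]
  map_smul' c ξ := by
    simp only [RingHom.id_apply, Finset.smul_sum]
    refine Finset.sum_congr rfl fun i _ => ?_
    simp only [lf, Pi.smul_apply, smul_eq_mul, map_mul, Algebra.smul_def, algebraMap_eq,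
      Finset.sum_mul, Finset.mul_sum, mul_assoc]

/-- The `ξ` with `∑ ξ_i Λ_i ∈ H`. -/
noncomputable def KH {k : ℕ} (lam : Fin k → Fin 3 → ℂ) (H : Submodule ℂ (MvPolynomial (Fin 3) ℂ)) :
    Submodule ℂ (Fin k → Fin 3 → ℂ) :=
  H.comap (Theta lam)

/-- The unordered pairs of distinct indices. -/
abbrev Edge (k : ℕ) : Type := {e : Sym2 (Fin k) // ¬ e.IsDiag}

/-- The pair `{i, j}`. -/
def ed {k : ℕ} (i j : Fin k) (h : i ≠ j) : Edge k := ⟨s(i, j), by simpa using h⟩

theorem not_isDiag_map {k : ℕ} (σ : Equiv.Perm (Fin k)) (e : Edge k) :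
    ¬ (Sym2.map σ e.1).IsDiag := by
  obtain ⟨e, he⟩ := e
  induction e using Sym2.ind with
  | _ i j =>
    simp only [Sym2.map_mk, Sym2.mk_isDiag_iff] at he ⊢
    exact fun h => he (σ.injective h)

/-- The action of a permutation of the indices on the pairs. -/
def edPerm {k : ℕ} (σ : Equiv.Perm (Fin k)) : Equiv.Perm (Edge k) where
  toFun e := ⟨Sym2.map σ e.1, not_isDiag_map σ e⟩
  invFun e := ⟨Sym2.map σ.symm e.1, not_isDiag_map σ.symm e⟩
  left_inv e := by
    apply Subtype.ext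
    simp [Sym2.map_map]
  right_inv e := by
    apply Subtype.ext
    simp [Sym2.map_map]

theorem edPerm_ed {k : ℕ} (σ : Equiv.Perm (Fin k)) (i j : Fin k) (h : i ≠ j) :
    edPerm σ (ed i j h) = ed (σ i) (σ j) (fun h' => h (σ.injective h')) := rfl

/-- The elements of `H` that vanish at the nodes `λ_i = λ_j = 0` with `{i,j} ∉ A`. -/
noncomputable def HV {k : ℕ} (lam : Fin k → Fin 3 → ℂ)
    (H : Submodule ℂ (MvPolynomial (Fin 3) ℂ)) (A : Finset (Edge k)) :
    Submodule ℂ (MvPolynomial (Fin 3) ℂ) where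
  carrier := {h | h ∈ H ∧ ∀ (i j : Fin k) (hij : i ≠ j), ed i j hij ∉ A →
    eval (cr (lam i) (lam j)) h = 0}
  add_mem' := fun {a b} ha hb => ⟨H.add_mem ha.1 hb.1, fun i j hij hA => by
    rw [map_add, ha.2 i j hij hA, hb.2 i j hij hA, add_zero]⟩
  zero_mem' := ⟨H.zero_mem, fun _ _ _ _ => map_zero _⟩
  smul_mem' := fun c a ha => ⟨H.smul_mem c ha.1, fun i j hij hA => by
    rw [smul_eval, ha.2 i j hij hA, mul_zero]⟩

/-- The `ζ` with `(ζ_i - ζ_j)(p_{ij}) = 0` for the pairs `{i,j} ∉ A`, where `p_{ij}` is the node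
`λ_i = λ_j = 0`. -/
def ZV {k : ℕ} (lam : Fin k → Fin 3 → ℂ) (A : Finset (Edge k)) :
    Submodule ℂ (Fin k → Fin 3 → ℂ) where
  carrier := {ζ | ∀ (i j : Fin k) (hij : i ≠ j), ed i j hij ∉ A →
    (ζ i - ζ j) ⬝ᵥ cr (lam i) (lam j) = 0}
  add_mem' := fun {a b} ha hb i j hij hA => by
    have h : (a + b) i - (a + b) j = (a i - a j) + (b i - b j) := by
      simp only [Pi.add_apply]; abel
    rw [h, add_dotProduct, ha i j hij hA, hb i j hij hA, add_zero]
  zero_mem' := fun i j hij hA => by simp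
  smul_mem' := fun c a ha i j hij hA => by
    have h : (c • a) i - (c • a) j = c • (a i - a j) := by
      simp only [Pi.smul_apply, smul_sub]
    rw [h, smul_dotProduct, ha i j hij hA, smul_zero]

/-- The forms `g_i = ∑_{j ≠ i} n_{ij} Λ_{ij}`. -/
noncomputable def gg {k : ℕ} (lam : Fin k → Fin 3 → ℂ) (n : Fin k → Fin k → Fin 3 → ℂ)
    (i : Fin k) : MvPolynomial (Fin 3) ℂ :=
  ∑ j ∈ Finset.univ.erase i, lf (n i j) * Lam2 lam i j

/-- The span of the products of a variable with a `Λ_i` or with a `g_i`. -/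
noncomputable def SS {k : ℕ} (lam : Fin k → Fin 3 → ℂ) (n : Fin k → Fin k → Fin 3 → ℂ) :
    Submodule ℂ (MvPolynomial (Fin 3) ℂ) :=
  Submodule.span ℂ (Set.range fun p : Fin 3 × Fin k => X p.1 * Lam lam p.2) ⊔
    Submodule.span ℂ (Set.range fun p : Fin 3 × Fin k => X p.1 * gg lam n p.2)

/-! ### Graded pieces with respect to `z = x_2` -/

/-- Linear substitution `X_i ↦ ∑_j g_{ij} X_j`. -/
noncomputable def sb (g : Matrix (Fin 3) (Fin 3) ℂ) :
    MvPolynomial (Fin 3) ℂ →ₐ[ℂ] MvPolynomial (Fin 3) ℂ :=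
  aeval fun i => lf (g i)

/-- Setting `z = 0`. -/
noncomputable def z0 : MvPolynomial (Fin 3) ℂ →ₐ[ℂ] MvPolynomial (Fin 2) ℂ :=
  aeval ![X 0, X 1, 0]

/-- The inclusion of the polynomials in `x, y`. -/
noncomputable def up : MvPolynomial (Fin 2) ℂ →ₐ[ℂ] MvPolynomial (Fin 3) ℂ :=
  aeval ![X 0, X 1]

/-- The leading pieces of `H` with respect to `z`: the `g` of degree `j` such that some
`z^{k-j} g'` in `H` has `g'(x,y,0) = g`. -/
noncomputable def JJ (H : Submodule ℂ (MvPolynomial (Fin 3) ℂ)) (k j : ℕ) :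
    Submodule ℂ (MvPolynomial (Fin 2) ℂ) :=
  ((H.comap (LinearMap.mulLeft ℂ ((X 2 : MvPolynomial (Fin 3) ℂ) ^ (k - j)))) ⊓ HS 3 j).map
    z0.toLinearMap

/-- `⊕_{j ≤ k} z^{k-j} J_j`. -/
noncomputable def JH (k : ℕ) (J : ℕ → Submodule ℂ (MvPolynomial (Fin 2) ℂ)) :
    Submodule ℂ (MvPolynomial (Fin 3) ℂ) :=
  ⨆ j : Fin (k + 1), (J j).map
    ((LinearMap.mulLeft ℂ ((X 2 : MvPolynomial (Fin 3) ℂ) ^ (k - (j : ℕ)))) ∘ₗ up.toLinearMap)

/-! ### The tridiagonal object -/

/-- Value at `(y, 1)` of the entry above the diagonal at position `m`: a wall `x_0 - μ_l x_1` when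
the label `U m = l` is nonzero, and `x_0` when `U m = 0`. -/
noncomputable def uval (U : ℕ → ℕ) (μ : ℕ → ℂ) (m : ℕ) (y : ℂ) : ℂ :=
  if U m = 0 then y else y - μ (U m)

/-- Value at `(y, 1)` of the entry below the diagonal at position `m`: a wall `x_0 - μ_l x_1` when
the label `V m = l` is nonzero, and `x_1` when `V m = 0`. -/
noncomputable def vval (V : ℕ → ℕ) (μ : ℕ → ℂ) (m : ℕ) (y : ℂ) : ℂ :=
  if V m = 0 then 1 else y - μ (V m)

/-- The label `i` is a pivot of the window `[a, b]`: some element of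
`⟨x_0, x_1⟩ ∏ u + ⟨x_0, x_1⟩ ∏ v` vanishes at `μ_1, ..., μ_{i-1}` and not at `μ_i`. -/
def PIV (U V : ℕ → ℕ) (μ : ℕ → ℂ) (a b i : ℕ) : Prop :=
  ∃ α β γ δ : ℂ,
    (∀ l, 1 ≤ l → l < i → (α * μ l + β) * (∏ m ∈ Finset.Ico a b, uval U μ m (μ l)) +
      (γ * μ l + δ) * (∏ m ∈ Finset.Ico a b, vval V μ m (μ l)) = 0) ∧
    (α * μ i + β) * (∏ m ∈ Finset.Ico a b, uval U μ m (μ i)) +
      (γ * μ i + δ) * (∏ m ∈ Finset.Ico a b, vval V μ m (μ i)) ≠ 0

open Classical in
/-- The number of windows `[a, b]` in `[0, k)` for which `i` is selected. -/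
noncomputable def cnt (Jp : ℕ → ℕ → ℕ → Prop) (k i : ℕ) : ℕ :=
  ((Finset.range k ×ˢ Finset.range k).filter fun p => p.1 ≤ p.2 ∧ Jp p.1 p.2 i).card

/-- The number of free positions in the window. -/
def freeCount (U : ℕ → ℕ) (a b : ℕ) : ℕ := ((Finset.Ico a b).filter fun m => U m = 0).card

/-- The labels of the walls in the window (and possibly `0`). -/
def blocked (U : ℕ → ℕ) (a b : ℕ) : Finset ℕ := (Finset.Ico a b).image U

/-- `i` is one of the first `min 4 (e + 2)` labels `≥ 1` that are not blocked. -/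
def inJ (U : ℕ → ℕ) (a b i : ℕ) : Prop :=
  1 ≤ i ∧ i ∉ blocked U a b ∧
    ((Finset.Ico 1 i).filter fun l => l ∉ blocked U a b).card < min 4 (freeCount U a b + 2)

instance (U : ℕ → ℕ) (a b i : ℕ) : Decidable (inJ U a b i) := by
  unfold inJ; infer_instance

/-! ### Block designs: lists of pairs (label of the wall before the block, length of the block) -/

/-- The list of the labels before the rows. -/
def ulist : List (ℕ × ℕ) → List ℕ
  | [] => []
  | (l, L) :: t => l :: (List.replicate (L - 1) 0 ++ ulist t)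

/-- The wall function of a block design: `Uof bl m` is the label at the position between the rows
`m` and `m + 1`. -/
def Uof (bl : List (ℕ × ℕ)) (m : ℕ) : ℕ := (ulist bl).getD (m + 1) 0

/-- The size of a block design. -/
def total (bl : List (ℕ × ℕ)) : ℕ := (bl.map Prod.snd).sum

/-- The number of labels `1 ≤ l < i` outside `S`. -/
def rk (S : List ℕ) (i : ℕ) : ℕ := ((List.range i).filter fun l => decide (1 ≤ l) && !(S.elem l)).length

/-- The windows inside a block of length `L` selecting `i`. -/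
def inner (L i : ℕ) : ℕ :=
  if i = 1 ∨ i = 2 then L * (L + 1) / 2 else
  if i = 3 then L * (L - 1) / 2 else
  if i = 4 then (L - 1) * (L - 2) / 2 else 0

/-- The windows from a block of length `L` to a block of length `L'` selecting `i`, where `S` is
the list of the labels in between and `e` the number of free positions in between. -/
def crossOne (S : List ℕ) (L L' e i : ℕ) : ℕ :=
  if S.elem i then 0 else
  if rk S i ≤ 1 then L * L' else
  if rk S i = 2 then L * L' - (if e = 0 then 1 else 0) else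
  if rk S i = 3 then L * L' - (if e = 0 then 1 + (if 2 ≤ L then 1 else 0) +
    (if 2 ≤ L' then 1 else 0) else if e = 1 then 1 else 0) else 0

/-- Sum of `crossOne` over the blocks that follow. -/
def crossAux (L i : ℕ) : List ℕ → ℕ → List (ℕ × ℕ) → ℕ
  | _, _, [] => 0
  | S, e, (l, L') :: t => crossOne (l :: S) L L' e i + crossAux L i (l :: S) (e + (L' - 1)) t

/-- The number of windows selecting `i`. -/
def gcount : List (ℕ × ℕ) → ℕ → ℕ
  | [], _ => 0
  | (_, L) :: t, i => inner L i + crossAux L i [] 0 t + gcount t i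

/-- The numerical condition for the step from `k - n` to `k`. -/
def StepIneq (k n s : ℕ) (g : ℕ → ℕ) : Prop :=
  ∀ i, 1 ≤ i → i ≤ n → (k - i + 3).choose 2 ≤ s * (4 * (k - i + 1) - 2) +
    (if i = 1 then k + 1 else 0) + g i

end Pool.Agent.Helper68.DS
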