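import Pool.Agent.Helper68.DS.Defs
import Pool.Agent.Helper74.SD.Defs

set_option autoImplicit false

/-!
# MP_52cd29_ag Q1 (sums of determinants): statements of the packets, part 1

Overview. `D(k,s)` = `DD k s`: for some `s` matrices of linear forms of size `k` the spaces `TT`
(products of a variable with an entry of the adjugate) span the forms of degree `k` in 4 variables.
`RED`: `DD k s` implies that a general form is a sum of `s` determinants.

Step on a plane (`STEPLIM`, `STEPGEN`, `MULTI`): if `E` is a space of forms of degree `k`, `ℓ` a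
linear form, and the `s` matrices of size `k - 1` together with `(E : ℓ)` fill degree `k - 1`, and
`s (4k - 2) + dim E|_ℓ ≥ dim R_k|_ℓ`, then `s` matrices of size `k` together with `E` fill degree
`k`. This uses Lemma A (`LEMA`, part 2), the heart of the proof.

New object (`BIDI`, `NEWOBJ`, `WLI`, `LEV0`, `DIV`, `CERT`): `E` is the limit of the spaces `TT` of
the matrices with diagonal `b`, superdiagonal `t u`, subdiagonal `t v`; its successive traces on
`n` planes `x_0 = μ_i x_1` are counted by windows; entries `u, v` that coincide with one of the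
`x_0 - μ_i x_1` (walls) move the traces to later planes.

Combinatorics (`DESC`, `COMMON`, `BLOCK`, `DESIGN`, `SEPDES`): explicit positions of the walls.
-/

namespace Pool.Agent.Helper68.DS

open MvPolynomial

/-! ## A. Curves and genericity -/

/-- PM. Closure properties of polynomial curves (all elementary: `f t = ∑_{n<N} t^n • c n`).

Hints: pad to a common `N` (coefficients `0`), products are Cauchy products, `prod` by induction,
the entry `(a,b)` of the adjugate is `det (updateRow M b (Pi.single a 1))`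
(`Matrix.adjugate_apply`), and a determinant is a sum over permutations of products
(`Matrix.det_apply`). `comp`: `(r + s t)^n` expands by the binomial theorem. `div`: if `f 0 = 0`
then `c 0 = 0` may be assumed (`f 0 = c 0` if `N ≥ 1`), so `f t = t • g t` with
`g t = ∑ t^n • c (n+1)`. `coeff1`: two expressions of the same curve have the same coefficients
after padding with zeros (in `V` choose: if `∑_{n<N} t^n • d n = 0` for all `t` then all `d n = 0`,
e.g. by composing with linear functionals separating points, and `Polynomial.funext`). -/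
structure PM_stmt : Prop where
  const : ∀ (V : Type) [AddCommGroup V] [Module ℂ V] (v : V), IsPolyMap fun _ : ℂ => v
  line : ∀ (V : Type) [AddCommGroup V] [Module ℂ V] (v w : V), IsPolyMap fun t : ℂ => v + t • w
  add : ∀ (V : Type) [AddCommGroup V] [Module ℂ V] (f g : ℂ → V), IsPolyMap f → IsPolyMap g →
    IsPolyMap fun t => f t + g t
  sub : ∀ (V : Type) [AddCommGroup V] [Module ℂ V] (f g : ℂ → V), IsPolyMap f → IsPolyMap g →
    IsPolyMap fun t => f t - g t
  smul : ∀ (V : Type) [AddCommGroup V] [Module ℂ V] (c : ℂ) (f : ℂ → V), IsPolyMap f →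
    IsPolyMap fun t => c • f t
  tsmul : ∀ (V : Type) [AddCommGroup V] [Module ℂ V] (f : ℂ → V), IsPolyMap f →
    IsPolyMap fun t => t • f t
  lin : ∀ (V W : Type) [AddCommGroup V] [Module ℂ V] [AddCommGroup W] [Module ℂ W]
    (L : V →ₗ[ℂ] W) (f : ℂ → V), IsPolyMap f → IsPolyMap fun t => L (f t)
  comp : ∀ (V : Type) [AddCommGroup V] [Module ℂ V] (r s : ℂ) (f : ℂ → V), IsPolyMap f →
    IsPolyMap fun t => f (r + s * t)
  pi : ∀ (ι : Type) [Finite ι] (V : Type) [AddCommGroup V] [Module ℂ V] (f : ℂ → ι → V),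
    (∀ i, IsPolyMap fun t => f t i) → IsPolyMap f
  sum : ∀ (ι : Type) (S : Finset ι) (V : Type) [AddCommGroup V] [Module ℂ V] (f : ι → ℂ → V),
    (∀ i ∈ S, IsPolyMap (f i)) → IsPolyMap fun t => ∑ i ∈ S, f i t
  mul : ∀ (A : Type) [CommRing A] [Algebra ℂ A] (f g : ℂ → A), IsPolyMap f → IsPolyMap g →
    IsPolyMap fun t => f t * g t
  prod : ∀ (ι : Type) (S : Finset ι) (A : Type) [CommRing A] [Algebra ℂ A] (f : ι → ℂ → A),
    (∀ i ∈ S, IsPolyMap (f i)) → IsPolyMap fun t => ∏ i ∈ S, f i t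
  adj : ∀ (κ : Type) [Fintype κ] [DecidableEq κ] (A : Type) [CommRing A] [Algebra ℂ A]
    (M : ℂ → Matrix κ κ A), (∀ a b, IsPolyMap fun t => M t a b) →
    ∀ a b, IsPolyMap fun t => (M t).adjugate a b
  div : ∀ (V : Type) [AddCommGroup V] [Module ℂ V] (f : ℂ → V), IsPolyMap f → f 0 = 0 →
    ∃ g : ℂ → V, IsPolyMap g ∧ ∀ t, f t = t • g t
  coeff1 : ∀ (V : Type) [AddCommGroup V] [Module ℂ V] (f : ℂ → V) (v w : V) (g : ℂ → V),
    IsPolyMap f → IsPolyMap g → (∀ t, f t = v + t • w + t ^ 2 • g t) →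
    ∀ h : ℂ → V, IsPolyMap h → (∀ t, f t = v + t • h t) → h 0 = w

/-- SC. Semicontinuity of the dimension of a span.

Proof. Choose, among the vectors `F a t₀`, a family (indexed by a finite set `B` of indices) that
is a basis of a complement of `H` in `H ⊔ span {F a t₀}`, i.e. linearly independent modulo `H` and
with the right cardinality `r = dim (H ⊔ span F(t₀)) - dim H`. Put `Q : V → V ⧸ H`. The `Q (F b t₀)`,
`b ∈ B`, are linearly independent, so there are linear functionals `φ_c` (`c ∈ B`) on `V ⧸ H` with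
`φ_c (Q (F b t₀)) = δ_{bc}` (extend to a basis). `t ↦ det (φ_c (Q (F b t)))` is a polynomial function
(a polynomial in `t` since every entry is), nonzero at `t₀`, so it has finitely many zeros; at the
other `t` the `Q (F b t)` are independent, so `dim (H ⊔ span F(t)) ≥ dim H + r`. -/
def SC_stmt : Prop :=
  ∀ (V : Type) [AddCommGroup V] [Module ℂ V] (H : Submodule ℂ V) [FiniteDimensional ℂ H]
    (ι : Type) [Finite ι] (F : ι → ℂ → V), (∀ a, IsPolyMap (F a)) → ∀ t₀ : ℂ,
    {t : ℂ | Module.finrank ℂ ↥(H ⊔ Submodule.span ℂ (Set.range fun a => F a t)) <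
      Module.finrank ℂ ↥(H ⊔ Submodule.span ℂ (Set.range fun a => F a t₀))}.Finite

/-- SCK. Semicontinuity of the dimension of a kernel (from `SC`, or directly).

Proof. Let `e_1..e_d` be a basis of `V`. `range (T t) = span {T t e_a}`, and
`finrank ker (T t) = d - finrank range (T t)`. Apply `SC` with `H = ⊥` and `F a t = T t e_a`. -/
def SCK_stmt : Prop :=
  ∀ (V W : Type) [AddCommGroup V] [Module ℂ V] [FiniteDimensional ℂ V] [AddCommGroup W]
    [Module ℂ W] (T : ℂ → V →ₗ[ℂ] W), (∀ v, IsPolyMap fun t => T t v) → ∀ t₀ : ℂ,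
    {t : ℂ | Module.finrank ℂ ↥(LinearMap.ker (T t₀)) <
      Module.finrank ℂ ↥(LinearMap.ker (T t))}.Finite

/-- LO. Line-open sets.

Proofs. `inter`: the exceptional set of `U ∩ U'` is the union of the two. `inter_ne`: take `p ∈ U`
and `p' ∈ U'`, `q = p' - p`; all but finitely many `t` have `p + t q ∈ U`; as
`p + t q = p' + (t - 1) q`, all but finitely many `t` have `p + t q ∈ U'`; `ℂ` is infinite.
`comap`: clear. `all`: induction over a finite index type. `rank`, `ker`: from `SC` and `SCK` applied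
to the curves `t ↦ F a (p + t q)` at `t₀ = 0`. -/
structure LO_stmt : Prop where
  inter : ∀ (P : Type) [AddCommGroup P] [Module ℂ P] (U U' : Set P), LineOpen U → LineOpen U' →
    LineOpen (U ∩ U')
  inter_ne : ∀ (P : Type) [AddCommGroup P] [Module ℂ P] (U U' : Set P), LineOpen U →
    LineOpen U' → U.Nonempty → U'.Nonempty → (U ∩ U').Nonempty
  comap : ∀ (P Q : Type) [AddCommGroup P] [Module ℂ P] [AddCommGroup Q] [Module ℂ Q]
    (L : P →ₗ[ℂ] Q) (U : Set Q), LineOpen U → LineOpen (L ⁻¹' U)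
  all : ∀ (P : Type) [AddCommGroup P] [Module ℂ P] (ι : Type) [Finite ι] (U : ι → Set P),
    (∀ i, LineOpen (U i) ∧ (U i).Nonempty) → LineOpen (⋂ i, U i) ∧ (⋂ i, U i).Nonempty
  rank : ∀ (P V : Type) [AddCommGroup P] [Module ℂ P] [AddCommGroup V] [Module ℂ V]
    (H : Submodule ℂ V) [FiniteDimensional ℂ H] (ι : Type) [Finite ι] (F : ι → P → V),
    (∀ a p q, IsPolyMap fun t => F a (p + t • q)) → ∀ r : ℕ,
    LineOpen {p | r ≤ Module.finrank ℂ ↥(H ⊔ Submodule.span ℂ (Set.range fun a => F a p))}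
  ker : ∀ (P V W : Type) [AddCommGroup P] [Module ℂ P] [AddCommGroup V] [Module ℂ V]
    [FiniteDimensional ℂ V] [AddCommGroup W] [Module ℂ W] (T : P → V →ₗ[ℂ] W),
    (∀ v p q, IsPolyMap fun t => T (p + t • q) v) → ∀ r : ℕ,
    LineOpen {p | Module.finrank ℂ ↥(LinearMap.ker (T p)) ≤ r}

/-! ## B. Reduction, dimensions, base cases -/

/-- RED. `DD k s` implies the statement about general forms. Use
`Pool.Agent.Helper74.SD.general_of_spans` (file `Pool/Agent/Helper74/SD/Reduce.lean`) with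
`I = Fin s`, `κ = Fin k`; every matrix of linear forms is `LM c` (coefficients of a homogeneous
polynomial of degree 1), and its dual condition `Spans`: if `φ` kills all `X j * adj`, then the
functional `f ↦ ∑ n ∈ Dl k, φ n * coeff n f` kills `⨆ TT (G i)`, hence every monomial of degree
`k`, so `φ n = 0` for `n ∈ Dl k`. -/
def RED_stmt : Prop :=
  ∀ k s : ℕ, 1 ≤ k → DD k s → Pool.Agent.Helper74.SD.GeneralIsSumOfDets k s

/-- DIM. The dimension of the space of forms (monomials of degree `k` form a basis;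
`Finset.finsuppAntidiag`, stars and bars), and finite-dimensionality. -/
def DIM_stmt : Prop :=
  ∀ n k : ℕ, FiniteDimensional ℂ ↥(HS (n + 1) k) ∧
    Module.finrank ℂ ↥(HS (n + 1) k) = (n + k).choose n

/-- BASE. `k = 1`: the adjugate of a 1×1 matrix is 1. `k = 2`: `G = [[x0,x1],[x2,x3]]`.
`k = 3`: `G = [[x2,x3,x1],[x1,x0,0],[x0,x2,x3]]` (the products of the variables with the nine 2×2
minors have rank 20, checked by computer). -/
def BASE_stmt : Prop := DD 1 1 ∧ DD 2 1 ∧ DD 3 1

/-- KPR. The restriction `pr μ` to the plane `x_0 = μ x_1`.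

Proof. First part: write `F` as a polynomial in `x_0 - μ x_1, x_1, x_2, x_3` (substitution
`X 0 ↦ X 0 + μ X 1` is an automorphism), or: `F - sec (pr μ F)` is divisible by `ell μ`, where
`sec : R3 → R4` is the section `X 0 ↦ X 1, X 1 ↦ X 2, X 2 ↦ X 3` (for `F = X 0` the difference is
`ell μ`; the set of `F` for which this holds is a subring containing the variables and constants).
Then take the homogeneous component of degree `k` of the cofactor. Second part: the section
preserves degrees. Third: `pr μ` preserves degrees. -/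
def KPR_stmt : Prop :=
  ∀ (μ : ℂ) (k : ℕ),
    (∀ F ∈ HS 4 (k + 1), pr μ F = 0 → ∃ F' ∈ HS 4 k, F = ell μ * F') ∧
    (∀ f ∈ HS 3 k, ∃ F ∈ HS 4 k, pr μ F = f) ∧
    (∀ F ∈ HS 4 k, pr μ F ∈ HS 3 k) ∧
    (∀ c : Fin 4 → ℂ, pr μ (lf c) = lf ![μ * c 0 + c 1, c 2, c 3])

/-! ## C. The step on a plane -/

/-- ADJ1. Adding `c` to the `(0,0)` entry. Proof: the entry `(a,b)` of the adjugate is
`(-1)^(a+b)` times the determinant of the matrix with the row `b` and the column `a` removed
(`Matrix.adjugate_fin_succ_eq_det_submatrix`). If `a = 0` or `b = 0` the `(0,0)` entry is removed.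
Otherwise the determinant is affine in the `(0,0)` entry (expand along the first row,
`Matrix.det_succ_row_zero`), the coefficient of `c` being the minor without the rows `0, b` and the
columns `0, a`. -/
def ADJ1_stmt : Prop :=
  ∀ (A : Type) [CommRing A] (m : ℕ) (M : Matrix (Fin (m + 1)) (Fin (m + 1)) A) (c : A),
    (∀ b, (M + Matrix.single 0 0 c).adjugate 0 b = M.adjugate 0 b) ∧
    (∀ a, (M + Matrix.single 0 0 c).adjugate a 0 = M.adjugate a 0) ∧
    (∀ a b : Fin m, (M + Matrix.single 0 0 c).adjugate a.succ b.succ =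
      M.adjugate a.succ b.succ + c * (M.submatrix Fin.succ Fin.succ).adjugate a b)

/-- LEMA (Lemma A, see part 2 for its proof). For every space `H` of plane forms of degree `m + 1`
there is a matrix `M` of linear forms of size `m + 1` such that the first row and first column of
the adjugate, times the variables, add `4m + 2` dimensions to `H` (or fill everything). -/
def LEMA_stmt : Prop :=
  ∀ m : ℕ, 1 ≤ m → ∀ H : Submodule ℂ (MvPolynomial (Fin 3) ℂ), H ≤ HS 3 (m + 1) →
    ∃ M : Matrix (Fin (m + 1)) (Fin (m + 1)) (MvPolynomial (Fin 3) ℂ), IsLin M ∧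
      min ((m + 3).choose 2) (Module.finrank ℂ ↥H + (4 * m + 2)) ≤
        Module.finrank ℂ ↥(H ⊔ tauM M)

/-- STEPLIM. The limit argument for one plane. May assume: `PM`, `SC`, `DIM`, `KPR`, `ADJ1`.

Proof. For `t ≠ 0` put `G_i(t) = M_i + single 0 0 (t⁻¹ • ell μ)`, a matrix of linear forms. By
`ADJ1` the space `TT (G_i(t))` contains
(1) `X_j adj(M_i)_{0b}` and `X_j adj(M_i)_{a0}`,
(2) `t • X_j adj(G_i(t))_{a+1,b+1} = t • X_j adj(M_i)_{a+1,b+1} + X_j ell adj(M_i')_{ab}`, where
`M_i' = M_i.submatrix succ succ`.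
The frame `F(t)` consisting of (1) and of the right sides of (2), for all `i, j, a, b`, is
polynomial in `t` (defined also at `t = 0`) and lies in degree `m + 1`.
Claim: `E ⊔ span F(0) = HS 4 (m+1)`. Let `f` be a form of degree `m + 1`. By `h2` there are `T` in
the span of (1) and `e ∈ E` with `pr (f - T - e) = 0`: indeed `(adjugate M).map pr` is the adjugate
of `M.map pr` (`RingHom.map_adjugate`), and `pr` maps `X 1, X 2, X 3` to `X 0, X 1, X 2`, so
`pr` of the span of (1) contains `tauM (M_i.map pr)`. By `KPR`, `f - T - e = ell * f'` with `f'` of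
degree `m`; by `h1`, `f'` is a sum of elements of the `TT (M_i')` and an element of `colon E m μ`;
multiplying by `ell` we get elements of the span of (2) at `t = 0` and of `E`.
By `SC` at `t₀ = 0` (and `DIM`: `HS 4 (m+1)` is finite-dimensional) there is `t ≠ 0` with
`finrank (E ⊔ span F(t)) ≥ finrank (HS 4 (m+1))`; as `E ⊔ span F(t) ≤ HS 4 (m+1)` these are equal,
and `span F(t) ≤ ⨆ TT (G_i(t))`. -/
def STEPLIM_stmt : Prop :=
  ∀ (m s : ℕ) (μ : ℂ) (E : Submodule ℂ (MvPolynomial (Fin 4) ℂ)), E ≤ HS 4 (m + 1) →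
    ∀ M : Fin s → Matrix (Fin (m + 1)) (Fin (m + 1)) (MvPolynomial (Fin 4) ℂ),
    (∀ i, IsLin (M i)) →
    HS 4 m ≤ (⨆ i, TT ((M i).submatrix Fin.succ Fin.succ)) ⊔ colon E m μ →
    HS 3 (m + 1) ≤ (⨆ i, tauM ((M i).map (pr μ))) ⊔ E.map (pr μ).toLinearMap →
    ∃ G : Fin s → Matrix (Fin (m + 1)) (Fin (m + 1)) (MvPolynomial (Fin 4) ℂ),
      (∀ i, IsLin (G i)) ∧ HS 4 (m + 1) ≤ (⨆ i, TT (G i)) ⊔ E

/-- STEPGEN. Existence of the matrices `M_i` of `STEPLIM`. May assume: `PM`, `LO`, `DIM`, `KPR`,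
`LEMA`.

Proof. Put `E' = E.map pr`. (i) By induction on `r ≤ s` (using `LEMA` with
`H = E' ⊔ ⨆_{i<r} tauM (N_i)`) there are matrices `N_i` (`i < r`) of linear forms in 3 variables
with `finrank (E' ⊔ ⨆_{i<r} tauM (N_i)) ≥ min (choose (m+3) 2) (finrank E' + r (4m+2))`. For
`r = s`, the hypothesis and `DIM` give `E' ⊔ ⨆ tauM (N_i) = HS 3 (m+1)`.
(ii) Parametrise tuples of matrices of linear forms by coefficients
`c ∈ P := Fin s → Fin (m+1) → Fin (m+1) → Fin 4 → ℂ`, `M_i(c) = (lf (c i a b))_{a,b}`. The set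
`U1` of the `c` with `HS 4 m ≤ (⨆ TT (M_i(c).submatrix succ succ)) ⊔ colon E m μ` is the set where a
span has dimension `≥ finrank (HS 4 m)` (everything lies in `HS 4 m`), so it is line-open by
`LO.rank` (entries of adjugates are polynomial on lines by `PM`), and it is nonempty: extend the
`G'_i` by a zero first row and column. The set `U2` of the `c` with
`HS 3 (m+1) ≤ (⨆ tauM (M_i(c).map pr)) ⊔ E'` is line-open in the same way and nonempty: lift the
`N_i` through `pr` (`KPR`; the lift of a linear form is a linear form). By `LO.inter_ne` there is a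
common `c`. (A homogeneous polynomial of degree 1 is `lf` of its coefficients.) -/
def STEPGEN_stmt : Prop :=
  ∀ (m s : ℕ), 1 ≤ m → ∀ (μ : ℂ) (E : Submodule ℂ (MvPolynomial (Fin 4) ℂ)),
    E ≤ HS 4 (m + 1) →
    (∃ G' : Fin s → Matrix (Fin m) (Fin m) (MvPolynomial (Fin 4) ℂ), (∀ i, IsLin (G' i)) ∧
      HS 4 m ≤ (⨆ i, TT (G' i)) ⊔ colon E m μ) →
    (m + 3).choose 2 ≤ s * (4 * m + 2) + Module.finrank ℂ ↥(E.map (pr μ).toLinearMap) →
    ∃ M : Fin s → Matrix (Fin (m + 1)) (Fin (m + 1)) (MvPolynomial (Fin 4) ℂ),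
      (∀ i, IsLin (M i)) ∧
      HS 4 m ≤ (⨆ i, TT ((M i).submatrix Fin.succ Fin.succ)) ⊔ colon E m μ ∧
      HS 3 (m + 1) ≤ (⨆ i, tauM ((M i).map (pr μ))) ⊔ E.map (pr μ).toLinearMap

/-- MULTI. Iteration over `n` planes. May assume: `STEPLIM`, `STEPGEN`, `KPR`, `DIM`.

Proof by induction on `n` (for all `E`, `μ`). `n = 0`: `DD k0 s` gives the matrices. `n + 1`: put
`m = k0 + n ≥ 1`, `E' = colon E m (μ 0)`, `μ' i = μ (i+1)`. The hypotheses of the induction for
`E', μ'` hold: for `i < n` take the vectors `w` of index `i + 1`; `∏_{l<i} ell (μ' l) * w a ∈ E'`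
because `ell (μ 0) * ∏_{l<i} ell (μ (l+1)) * w a = ∏_{l<i+1} ell (μ l) * w a ∈ E` and the degree of
`∏_{l<i} ell (μ' l) * w a` is `i + (k0 + n + 1 - (i+1)) = m`. So there are `G'_i` of size `m` with
`HS 4 m ≤ (⨆ TT (G' i)) ⊔ E'`. The index `i = 0` gives
`finrank (E.map pr) ≥ g` (linearly independent images of elements of `E`), so `STEPGEN` and then
`STEPLIM` apply. -/
def MULTI_stmt : Prop :=
  ∀ (s n k0 : ℕ), 1 ≤ k0 → DD k0 s → ∀ (μ : ℕ → ℂ) (E : Submodule ℂ (MvPolynomial (Fin 4) ℂ)),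
    E ≤ HS 4 (k0 + n) →
    (∀ i < n, ∃ (g : ℕ) (w : Fin g → MvPolynomial (Fin 4) ℂ),
      (∀ a, w a ∈ HS 4 (k0 + n - i)) ∧
      (∀ a, (∏ l ∈ Finset.range i, ell (μ l)) * w a ∈ E) ∧
      LinearIndependent ℂ (fun a => pr (μ i) (w a)) ∧
      (k0 + n - i + 2).choose 2 ≤ s * (4 * (k0 + n - i) - 2) + g) →
    ∃ G : Fin s → Matrix (Fin (k0 + n)) (Fin (k0 + n)) (MvPolynomial (Fin 4) ℂ),
      (∀ i, IsLin (G i)) ∧ HS 4 (k0 + n) ≤ (⨆ i, TT (G i)) ⊔ E

/-! ## D. The new object -/

/-- The form `∏_{l<a} b_l ∏_{l>c} b_l ∏_{a ≤ m < c} u_m`. -/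
noncomputable def Pw {k : ℕ} (b : Fin k → MvPolynomial (Fin 4) ℂ)
    (u : ℕ → MvPolynomial (Fin 4) ℂ) (a c : Fin k) : MvPolynomial (Fin 4) ℂ :=
  (∏ l ∈ Finset.univ.filter (fun l => l < a ∨ c < l), b l) *
    ∏ m ∈ Finset.Ico (a : ℕ) c, u m

/-- The limit space of the new object. -/
noncomputable def E0 {k : ℕ} (b : Fin k → MvPolynomial (Fin 4) ℂ)
    (u v : ℕ → MvPolynomial (Fin 4) ℂ) : Submodule ℂ (MvPolynomial (Fin 4) ℂ) :=
  Submodule.span ℂ {f | ∃ (j : Fin 4) (a c : Fin k), a ≤ c ∧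
    (f = X j * Pw b u a c ∨ f = X j * Pw b v a c)}

/-- BIDI. Adjugate of a lower bidiagonal matrix (diagonal `b`, entry `v j` at `(j+1, j)`).

Proof. First over a field with all `b` nonzero (or in the fraction field of the polynomial ring in
the entries, then specialise with `RingHom.map_adjugate`): the matrix `N` with
`N_{ij} = (-1)^(i-j) ∏_{j≤m<i} v_m / ∏_{j≤l≤i} b_l` for `j ≤ i` and `0` otherwise satisfies
`L * N = 1`, and `adj L = det L • L⁻¹`, `det L = ∏ b_l` (lower triangular). Alternatively expand: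
by `Matrix.adjugate_fin_succ_eq_det_submatrix` and induction on `k`. -/
def BIDI_stmt : Prop :=
  ∀ (A : Type) [CommRing A] (k : ℕ) (b : Fin k → A) (v : ℕ → A) (i j : Fin k), j ≤ i →
    (Matrix.of fun i j : Fin k => if i = j then b i else if (j : ℕ) + 1 = i then v j
      else 0).adjugate i j =
      (-1) ^ ((i : ℕ) - j) * (∏ l ∈ Finset.univ.filter (fun l => l < j ∨ i < l), b l) *
        ∏ m ∈ Finset.Ico (j : ℕ) i, v m

/-- NEWOBJ. The space `E0` is a limit of spaces `TT`. May assume: `PM`, `SC`, `DIM`, `BIDI`.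

Proof. For `t ≠ 0` let `T(t)` be the tridiagonal matrix with diagonal `b`, `t u_m` at `(m, m+1)` and
`t v_m` at `(m+1, m)`. Let `H(t)` have diagonal `b`, `t^2 u_m` at `(m, m+1)` and `v_m` at `(m+1, m)`;
with `D = diag(t^i)` we have `H(t) = D⁻¹ T(t) D` (entry `(i,j)` multiplied by `t^(j-i)`), so
`adj H(t) = D⁻¹ adj T(t) D` (`Matrix.adjugate_mul_distrib`, or `adj` of a conjugate), i.e.
`adj H(t)_{ij} = t^(j-i) adj T(t)_{ij}`; hence `X_j' * adj H(t)_{ij} ∈ TT (T(t))` for all `i, j`.
`adj H(t)_{ij}` is polynomial in `t` and for `j ≤ i` its value at `t = 0` is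
`± Pw b v j i` by `BIDI`. Symmetrically (transpose) with `H'(t)`: diagonal `b`, `u_m` at `(m, m+1)`,
`t^2 v_m` at `(m+1, m)`: for `i ≤ j`, `adj H'(t)_{ij}` tends to `± Pw b u i j`.
So the polynomial frame `F(t)` (all `X_j' adj H(t)_{ij}`, `j ≤ i`, and all
`X_j' adj H'(t)_{ij}`, `i ≤ j`) lies in `TT (T(t))` for `t ≠ 0` and spans `E0` at `t = 0`. By `SC`
with `H = ⨆ TT (G i)` (finite-dimensional, in degree `k`) there is `t ≠ 0` with
`(⨆ TT (G i)) ⊔ TT (T(t)) = HS 4 k`. (All `adj` entries are of degree `k - 1`; `k ≥ 1`.) -/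
def NEWOBJ_stmt : Prop :=
  ∀ (k s : ℕ), 1 ≤ k → ∀ (b : Fin k → MvPolynomial (Fin 4) ℂ) (u v : ℕ → MvPolynomial (Fin 4) ℂ),
    (∀ l, (b l).IsHomogeneous 1) → (∀ m, (u m).IsHomogeneous 1) → (∀ m, (v m).IsHomogeneous 1) →
    (∃ G : Fin s → Matrix (Fin k) (Fin k) (MvPolynomial (Fin 4) ℂ),
      (∀ i, IsLin (G i)) ∧ HS 4 k ≤ (⨆ i, TT (G i)) ⊔ E0 b u v) →
    DD k (s + 1)

/-- WLI. Linear independence of the windows after restriction to a plane. `d` is the number of
planes already used. For `d = 0` also the pure part `x_1^j x_2^{k-j}`.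

Proof. The members with different exponents of `X 0` involve different monomials, so it is enough
to treat a fixed length `c - a + 1 = m`; then `X 0 ^ (m - d)` can be cancelled. Let
`β_a = ∏_{l<a} (x_1 - κ_l x_2) ∏_{l ≥ a+m} (x_1 - κ_l x_2)`, `0 ≤ a ≤ k - m`, and
`∑ λ_a β_a = 0`. Evaluate at `(x_1, x_2) = (κ_r, 1)`: `β_a(κ_r, 1) ≠ 0` iff `a ≤ r < a + m`. By
induction on `r = 0, 1, ..., k - m`: if `λ_a = 0` for `a < r`, then at `κ_r` only `a = r` survives
(`a > r` vanish), so `λ_r = 0`. In the second part the windows have exponent of `X 0` at least 1, and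
the monomials `x_1^j x_2^{k-j}` have exponent 0. -/
def WLI_stmt : Prop :=
  ∀ (k : ℕ) (κ : Fin k → ℂ), Function.Injective κ →
    (∀ d : ℕ, LinearIndependent ℂ
      (fun p : {p : Fin k × Fin k // p.1 ≤ p.2 ∧ d ≤ (p.2 : ℕ) - p.1 + 1} =>
        (X 0 : MvPolynomial (Fin 3) ℂ) ^ ((p.1.2 : ℕ) - p.1.1 + 1 - d) *
          ∏ l ∈ Finset.univ.filter (fun l => l < p.1.1 ∨ p.1.2 < l), (X 1 - C (κ l) * X 2))) ∧
    LinearIndependent ℂ (Sum.elim
      (fun j : Fin (k + 1) => (X 1 : MvPolynomial (Fin 3) ℂ) ^ (j : ℕ) * X 2 ^ (k - (j : ℕ)))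
      (fun p : {p : Fin k × Fin k // p.1 ≤ p.2} =>
        (X 0 : MvPolynomial (Fin 3) ℂ) ^ ((p.1.2 : ℕ) - p.1.1 + 1) *
          ∏ l ∈ Finset.univ.filter (fun l => l < p.1.1 ∨ p.1.2 < l), (X 1 - C (κ l) * X 2)))

/-- LEV0. The pure part of the new object.

Proof. `Pw b u a a = ∏_{l ≠ a} (x_2 - κ_l x_3)`, `a = 0..k-1`, are `k` forms in `x_2, x_3` of degree
`k - 1`, linearly independent (evaluate at `(κ_r, 1)`), so they span the `k`-dimensional space of
forms of degree `k - 1` in `x_2, x_3` (explicitly, Lagrange interpolation: for a form `f` of degree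
`k - 1` in `x_2,x_3`, `f = ∑_a f(κ_a, 1) / ∏_{l≠a} (κ_a - κ_l) • ∏_{l≠a} (x_2 - κ_l x_3)`).
Multiplying by `x_2` and `x_3` gives all `x_2^j x_3^{k-j}`. -/
def LEV0_stmt : Prop :=
  ∀ (k : ℕ), 1 ≤ k → ∀ (κ : Fin k → ℂ), Function.Injective κ →
    ∀ (u v : ℕ → MvPolynomial (Fin 4) ℂ) (j : ℕ), j ≤ k →
    (X 2 : MvPolynomial (Fin 4) ℂ) ^ j * X 3 ^ (k - j) ∈
      E0 (fun l => X 2 - C (κ l) * X 3) u v

/-- DIV. A binary form vanishing at `(μ_1,1), ..., (μ_{i-1},1)` and not at `(μ_i,1)`, times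
nothing else, is divisible by the product of the linear forms.

Proof. Induction on the number of points: a form `f` of degree `m` vanishing at `(μ,1)` is
divisible by `x - μ y`: `f(x,y) = ∑ c_j x^j y^{m-j}` and `∑ c_j μ^j = 0`, so
`f = ∑ c_j (x^j - μ^j y^j) y^{m-j}`, and `x - μ y` divides `x^j - (μ y)^j`, the cofactor being a form
of degree `m - 1` (if `m = 0` then `f = c_0 = 0`, excluded because `f(μ_i,1) ≠ 0`); the cofactor
vanishes at the other points because these are distinct from `μ`, and is nonzero at `μ_i`. -/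
def DIV_stmt : Prop :=
  ∀ (i m : ℕ) (μ : ℕ → ℂ), (∀ l l', 1 ≤ l → l ≤ i → 1 ≤ l' → l' ≤ i → μ l = μ l' → l = l') →
    1 ≤ i → ∀ f ∈ HS 2 m, (∀ l, 1 ≤ l → l < i → eval ![μ l, 1] f = 0) → eval ![μ i, 1] f ≠ 0 →
    i - 1 ≤ m ∧ ∃ g ∈ HS 2 (m - (i - 1)),
      f = (∏ l ∈ Finset.Ico 1 i, (X 0 - C (μ l) * X 1)) * g ∧ eval ![μ i, 1] g ≠ 0

/-- CERT. The certificate theorem: windows and labels. May assume: `MULTI`, `NEWOBJ`, `WLI`,
`LEV0`, `DIV`.

Proof. Put `b_l = X 2 - C (l+1) X 3` (`l : Fin k`), `u_m = X 0` if `U m = 0` and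
`ell (μ (U m))` otherwise, `v_m = X 1` if `V m = 0` and `ell (μ (V m))` otherwise, `E = E0 b u v`
(a subspace of `HS 4 k`), `k = k0 + n` with `k0 = k - n ≥ 1`. By `NEWOBJ` it is enough to produce
`G` with `HS 4 k ≤ (⨆ TT (G i)) ⊔ E`, which comes from `MULTI` with `μ'_i = μ (i+1)`: for `i < n`
(label `I = i + 1`) we need many `w`.
For a window `a ≤ c < k` with `Jp a c I`, `PIV` gives `α β γ δ`; the form
`f = (α x_0 + β x_1) ∏_{a≤m<c} u_m + (γ x_0 + δ x_1) ∏_{a≤m<c} v_m` in `x_0, x_1` has degree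
`c - a + 1`, its value at `(y,1)` is the expression in `PIV`, and
`f * ∏_{l<a or l>c} b_l` is a combination of `X 0 * Pw b u a c, X 1 * Pw b u a c, X 0 * Pw b v a c,
X 1 * Pw b v a c`, so it lies in `E`. By `DIV` (view `f` as a form in two variables, then
rename), `f = ∏_{l<i} ell (μ' l) * g` with `g` a form in `x_0,x_1` of degree `c - a + 1 - i` and
`g(μ_I, 1) ≠ 0`. Put `w = g * ∏_{l<a or l>c} b_l`, of degree `k - i`; the product
`∏_{l<i} ell (μ' l) * w` is in `E`; and
`pr (μ_I) w = g(μ_I,1) • X 0 ^ (c-a+1-i) * ∏ (X 1 - C (l+1) X 2)`. For `i = 0` add the `k + 1`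
elements `X 2 ^ j X 3 ^ (k-j)` (`LEV0`). Linear independence of the images: `WLI` with `d = i`
(scaled by the nonzero constants `g(μ_I,1)`). The number of the `w` is
`(if I = 1 then k+1 else 0) + cnt Jp k I`. -/
def CERT_stmt : Prop :=
  ∀ (k n s : ℕ) (U V : ℕ → ℕ) (μ : ℕ → ℂ) (Jp : ℕ → ℕ → ℕ → Prop), n < k →
    (∀ l l', 1 ≤ l → l ≤ n → 1 ≤ l' → l' ≤ n → μ l = μ l' → l = l') →
    (∀ a b i, a ≤ b → b < k → 1 ≤ i → i ≤ n → Jp a b i → PIV U V μ a b i) →
    StepIneq k n s (cnt Jp k) → DD (k - n) s → DD k (s + 1)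

/-! ## E. Walls -/

/-- DESC. A special case of the rule of signs, by Rolle.

Proof. It is enough to treat real coefficients (real and imaginary parts, the points are real).
Let `f(y) = c0 + c1 y + c2 y^e + c3 y^(e+1)` on `(0,∞)`. Case `e ≥ 2` and four zeros: by Rolle
`f''` has at least two zeros in `(0,∞)`, and
`f''(y) = y^(e-2) (c2 e (e-1) + c3 (e+1) e y)`; an affine function with two zeros is zero, so
`c2 = c3 = 0`; then `c0 + c1 y` has two zeros, so `c0 = c1 = 0`. Case `e = 1` with three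
zeros: `c0 + (c1 + c2) y + c3 y^2` has three zeros (polynomial of degree ≤ 2), so all coefficients
vanish. -/
def DESC_stmt : Prop :=
  (∀ (e : ℕ), 2 ≤ e → ∀ (c : Fin 4 → ℂ) (y : Fin 4 → ℝ), Function.Injective y →
    (∀ r, 0 < y r) →
    (∀ r, c 0 + c 1 * (y r : ℂ) + c 2 * (y r : ℂ) ^ e + c 3 * (y r : ℂ) ^ (e + 1) = 0) → c = 0)

/-- COMMON. Common walls (`U = V`). May assume: `DESC`.

Proof. Let the window be `[a,b]`, `e = freeCount U a b`, `S = blocked U a b`, and `W(y)` the product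
of the factors `y - μ (U m)` over the walls `m ∈ [a,b)`. Then `∏ uval = W(y) y^e`,
`∏ vval = W(y)`. `W(ν_l) = 0` for the labels `l ≥ 1` in `S`, and `W(ν_i) ≠ 0` if `i ∉ S` (`ν`
injective on `[1,∞)`). Let `l_1 < ... < l_r < i` be the labels `≥ 1` below `i` not in `S`;
`r < min 4 (e+2)` by `inJ`. We need `α β γ δ` such that
`f(y) = (α y + β) y^e + (γ y + δ)` vanishes at `ν_{l_1}, ..., ν_{l_r}` and not at `ν_i`. Let `F` be the
space of the functions `f`: it is spanned by `1, y, y^e, y^{e+1}`, and evaluation at any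
`d = min 4 (e+2)` distinct positive points is injective on the `d`-dimensional space (for `e ≥ 2`:
`DESC`; for `e = 1`: `⟨1,y,y^2⟩`, take `β = 0`; for `e = 0`: `⟨1,y⟩`, take `α = β = 0`); so for
`r + 1 ≤ d` points there is `f` in `F` vanishing at the first `r` and not at the last: choose `d`
distinct positive points containing `ν_{l_1}, ..., ν_{l_r}, ν_i`; the evaluation map `F' → ℂ^d` is
injective between spaces of the same dimension `d`, hence surjective. -/
def COMMON_stmt : Prop :=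
  ∀ (U : ℕ → ℕ) (ν : ℕ → ℝ), (∀ i, 1 ≤ i → 0 < ν i) →
    (∀ l l', 1 ≤ l → 1 ≤ l' → ν l = ν l' → l = l') →
    ∀ a b i, a ≤ b → inJ U a b i → PIV U U (fun i => (ν i : ℂ)) a b i

/-- BLOCK. The number of windows selecting `i` in a block design (tested by computer).

Proof. Rows are `0, ..., k-1`, `k = total bl`; `ulist bl` has length `k` (all lengths are `≥ 1`), its
entry `r ≥ 1` is the label `U (r-1)` of the position between the rows `r-1` and `r`; entries are `0`
inside the blocks and the label (nonzero except possibly for the first block) at the first row of a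
block. A window `[a,b]` contains the positions `a ≤ m < b`, i.e. the entries `a+1, ..., b`.
If `a, b` are in the same block: no wall, `e = b - a`, `rk [] i = i - 1`, so `i` is selected iff
`i - 1 < min 4 (b - a + 2)`; count the pairs `a ≤ b` in a block of length `L` with
`b - a ≥ i - 3`: `inner L i`. If `a` is in the block `s` at distance `α` from its last row and `b` in
the block `t > s` at distance `β` from its first row (`α < L_s`, `β < L_t`): the walls inside are the
labels of the blocks `s+1..t`, `e = α + β + ∑_{s<r<t} (L_r - 1)`; `i` is selected iff it is not one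
of these labels and `rk S i < min 4 (e + 2)`; count the pairs `(α, β)`: `crossOne`. Then induct on the
list: windows starting in the first block, plus the windows of the tail (the wall function of
the tail is the shift of the wall function). -/
def BLOCK_stmt : Prop :=
  ∀ bl : List (ℕ × ℕ), bl ≠ [] → (∀ p ∈ bl, 1 ≤ p.2) → (∀ p ∈ bl.tail, p.1 ≠ 0) →
    ∀ i, 1 ≤ i → cnt (inJ (Uof bl)) (total bl) i = gcount bl i

/-- A valid block design. -/
def Valid (bl : List (ℕ × ℕ)) : Prop :=
  bl ≠ [] ∧ (∀ p ∈ bl, 1 ≤ p.2) ∧ (∀ p ∈ bl.tail, p.1 ≠ 0)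

end Pool.Agent.Helper68.DS
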