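import Pool.Agent.Helper68.DS.Goals

set_option autoImplicit false

/-!
# MP_52cd29_ag Q1 (sums of determinants): statements of the packets, part 2: Lemma A

Lemma A (`LEMA_stmt` in part 1): `H` a space of ternary forms of degree `k = m + 1`; there is a
matrix `M` of linear forms with `dim (H + tauM M) ≥ min (dim R_k, dim H + 4k - 2)`.

Strategy. We may assume `dim H ≤ dim R_k - (4k - 2)`. Take `k` lines `λ_i` in general position, the
`k(k-1)/2` nodes `p_{ij}`, `Λ_i = ∏_{l≠i} λ_l`, `Λ_{ij} = ∏_{l≠i,j} λ_l`. The matrices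
`diag(λ) + t N` with `N` strictly upper triangular give in the limit the span of the `R_1 Λ_i`
(dimension `2k + 1`, the kernel of the evaluation at the nodes) and of the `R_1 g_i`,
`g_i = ∑_{j≠i} n_{ij} Λ_{ij}`, `n` antisymmetric (`ADJD`, `BASECH`, `STARLIM`).
(1) For general lines, `H` meets `⟨R_1 Λ_i⟩` only in 0 (`RNK`, `CLOS`, `TRANS`, `LEMJ`, `LEMG`,
`PSP`, `GRAD`, `DEGEN`, `STAR1`).
(2) For general lines the nodes can be divided into two parts `Z` and its complement such that an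
element of `H` vanishing on `Z` is zero, and a `ζ ∈ R_1^k` with `(ζ_i - ζ_j)(p_{ij}) = 0` outside
`Z` satisfies this at all nodes (`BKER`, `KEREV`, `MINGEN`, `PART`, `INV`, `PARTZ`); then the
`n_{ij}` are chosen zero on `Z` and nonzero outside (`COUNT`).
-/

namespace Pool.Agent.Helper68.DS

open MvPolynomial

/-! ## F. Part (1) of Lemma A -/

/-- RNK. A linear map of maximal rank in a family. May assume: `PM`, `SC`.

Proof. Put `T t = A + t B + t^2 C(t)`. Suppose `A v = 0` and `B v ∉ range A`. Choose `v_1..v_r` such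
that the `A v_i` are a basis of `range A`. The curves `F_i(t) = T t v_i` and
`F_0(t) = B v + t C(t) v` are polynomial; at `t = 0` they span a space of dimension `r + 1`; for
`t ≠ 0` they are in `range (T t)` (`T t v = t • F_0(t)`), of dimension `≤ r`. This contradicts `SC`
(with `H = ⊥`). -/
def RNK_stmt : Prop :=
  ∀ (V W : Type) [AddCommGroup V] [Module ℂ V] [FiniteDimensional ℂ V] [AddCommGroup W]
    [Module ℂ W] (A B : V →ₗ[ℂ] W) (C : ℂ → V →ₗ[ℂ] W), (∀ v, IsPolyMap fun t => C t v) →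
    (∀ t : ℂ, Module.finrank ℂ ↥(LinearMap.range (A + t • B + t ^ 2 • C t)) ≤
      Module.finrank ℂ ↥(LinearMap.range A)) →
    ∀ v, A v = 0 → B v ∈ LinearMap.range A

/-- CLOS. A good linear form `z`. May assume: `PM`, `LO`, `DIM`, `RNK`.

Proof. For `i ≤ k` and `z : Fin 3 → ℂ` let `T^i_z : HS 3 (k-i) → R3 ⧸ H`, `g ↦ (lf z)^i g mod H`, and let
`r_i` be the maximum over `z` of its rank. The set `U_i` of the `z` with rank `≥ r_i` (equivalently
`finrank ker ≤ dim - r_i`) is line-open (`LO.ker`) and nonempty; by `LO.all` there is `z` in all the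
`U_i`, `i = 0..k`. `r_k ≥ 1`: otherwise `(lf z)^k ∈ H` for all `z`; expanding in monomials of `z`
(multinomial theorem; a polynomial in the variables `z` with values in `R3 ⧸ H` vanishing for all
`z` has zero coefficients) all monomials of degree `k` would be in `H`, which is excluded. So
`(lf z)^k ∉ H`, and `z ≠ 0` as `k ≥ 1`. Let `j < k`, `i = k - j ≥ 1`, `c : Fin 3 → ℂ`. Then
`T^i_{z + t c} = A + t B + t^2 C(t)` with `A = T^i_z`, `B g = i (lf z)^(i-1) (lf c) g`, `C(t)`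
polynomial, and all these maps have rank `≤ r_i = rank A`. By `RNK`, if `(lf z)^i g ∈ H` then
`i (lf z)^(i-1) (lf c) g ≡ (lf z)^i g'' mod H` for some `g'' ∈ HS 3 j`; take `g' = g'' / i`. -/
def CLOS_stmt : Prop :=
  ∀ (k : ℕ), 1 ≤ k → ∀ H : Submodule ℂ (MvPolynomial (Fin 3) ℂ), H ≤ HS 3 k → ¬ HS 3 k ≤ H →
    ∃ z : Fin 3 → ℂ, z ≠ 0 ∧ lf z ^ k ∉ H ∧
      ∀ j < k, ∀ g ∈ HS 3 j, lf z ^ (k - j) * g ∈ H → ∀ c : Fin 3 → ℂ,
        ∃ g' ∈ HS 3 j, lf z ^ (k - j - 1) * (lf c * g - lf z * g') ∈ H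

/-- TRANS. Linear change of coordinates.

Proof. `sb g (lf c) = lf (c ᵥ* g)`, `sb g` is bijective with inverse `sb g⁻¹`, and preserves degrees.
For the last part put `lam' i = lam i ᵥ* g⁻¹`; then `sb g (Lam lam' i) = Lam lam i`,
`sb g (Theta lam' ξ) = Theta lam (fun i => ξ i ᵥ* g)`, so `ξ ∈ KH lam' H` iff
`(fun i => ξ i ᵥ* g) ∈ KH lam (H.map (sb g))`, and `ξ ↦ (fun i => ξ i ᵥ* g)` is a linear
automorphism. -/
def TRANS_stmt : Prop :=
  ∀ (g : Matrix (Fin 3) (Fin 3) ℂ), IsUnit g.det →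
    (∀ c, sb g (lf c) = lf (Matrix.vecMul c g)) ∧ Function.Bijective (sb g) ∧
    (∀ (k : ℕ) (f : MvPolynomial (Fin 3) ℂ), sb g f ∈ HS 3 k ↔ f ∈ HS 3 k) ∧
    ∀ (H : Submodule ℂ (MvPolynomial (Fin 3) ℂ)),
      Module.finrank ℂ ↥(H.map (sb g).toLinearMap) = Module.finrank ℂ ↥H ∧
      ∀ (k r : ℕ) (lam : Fin k → Fin 3 → ℂ),
        Module.finrank ℂ ↥(KH lam (H.map (sb g).toLinearMap)) ≤ r →
        ∃ lam' : Fin k → Fin 3 → ℂ, Module.finrank ℂ ↥(KH lam' H) ≤ r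

/-- LEMJ. Spaces of polynomials with vanishing Jacobians.

Proof. Order the exponents `(a,b)` lexicographically. For `F ≠ 0` let `lm F` be its largest
exponent. Let `F, G ∈ P` be nonzero with `lm F = (a,b)`, `lm G = (c,d)`. If `a + c ≥ 1` and
`b + d ≥ 1`, the coefficient of the Jacobian at the exponent `(a+c-1, b+d-1)` is
`(ad - bc) lc(F) lc(G)`, because other pairs of exponents of `F` and `G` have a smaller sum; so
`ad = bc`; if `a + c = 0` or `b + d = 0` then `ad = bc` too. So the exponents in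
`S = {lm F : F ∈ P, F ≠ 0}` are pairwise proportional; they are nonzero (no constant term) of
total degree `≤ k`; two distinct proportional nonzero vectors of `ℕ²` have distinct total
degrees; so `|S| ≤ k`. The map `P → ℂ^S`, `F ↦ (coeff_s F)_s`, is injective (`coeff (lm F) F ≠ 0`),
hence `dim P ≤ |S| ≤ k`. -/
def LEMJ_stmt : Prop :=
  ∀ (k : ℕ) (P : Submodule ℂ (MvPolynomial (Fin 2) ℂ)),
    (∀ F ∈ P, F.totalDegree ≤ k ∧ coeff 0 F = 0) →
    (∀ F ∈ P, ∀ G ∈ P, pderiv 0 F * pderiv 1 G - pderiv 1 F * pderiv 0 G = 0) →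
    Module.finrank ℂ ↥P ≤ k

/-- LEMG. Gradients at `k` points. May assume: `LEMJ`.

Proof. `P` is finite-dimensional (bounded degree). By induction on `j ≤ k` there are points
`pt_0, ..., pt_{j-1}` such that `D_j : P → (ℂ²)^j`, `F ↦ (∇F(pt_i))_{i<j}`, is surjective. Step: let
`j < k`, `P_j = ker D_j`, `dim P_j = dim P - 2j ≥ 3k - 1 - 2(k-1) = k + 1 > k`. By `LEMJ` there are
`F, G ∈ P_j` whose Jacobian is a nonzero polynomial; take a point `pt_j` where it does not vanish: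
`∇F(pt_j), ∇G(pt_j)` is a basis of `ℂ²`, so `D_{j+1}` is surjective. For `j = k`: if `w` kills all
`(∇F(pt_i))_i` then `w = 0`. -/
def LEMG_stmt : Prop :=
  ∀ (k : ℕ) (P : Submodule ℂ (MvPolynomial (Fin 2) ℂ)),
    (∀ F ∈ P, F.totalDegree ≤ k ∧ coeff 0 F = 0) → 3 * k ≤ Module.finrank ℂ ↥P + 1 →
    ∃ pt : Fin k → Fin 2 → ℂ, ∀ w : Fin k → Fin 2 → ℂ,
      (∀ F ∈ P, ∑ i, (w i 0 * eval (pt i) (pderiv 0 F) + w i 1 * eval (pt i) (pderiv 1 F)) = 0) →
      w = 0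

/-- PSP. The space of the polynomials `F_φ`. May assume: `DIM`.

Proof. Let `N` be the space of the linear functionals `φ` on `R2` that vanish on `J j` for `j ≤ k`,
on all forms of degree `> k`, and on `1`. A functional vanishing on the forms of degree `0` and of
degree `> k` is the same as a family of functionals on `HS 2 j`, `1 ≤ j ≤ k`, so
`dim N = ∑_{j=1}^k (j + 1 - dim J j) = choose (k+2) 2 - 1 - ∑_{j≤k} dim J j` (`J 0 = ⊥`).
For `φ ∈ N` put `F_φ = ∑_{j=1}^k (-1)^(j-1)/j • ∑_{a+b=j} choose(j,a) φ(x^a y^b) X 0^a X 1^b`, so that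
`F_φ(α,β) = ∑_{j=1}^k (-1)^(j-1)/j φ((αx+βy)^j)`. It is linear and injective in `φ`, of degree
`≤ k`, without constant term. Its derivatives:
`∂_0 F_φ(α,β) = ∑_{j=1}^k (-1)^(j-1) φ(x (αx+βy)^(j-1))`, same with `y` for `∂_1`. So
`q ∂_0 F_φ + r ∂_1 F_φ = φ((q x + r y) ∑_{a<k} (-1)^a (αx+βy)^a)`, and the term `a = k` has degree
`k + 1`, killed by `φ`. Take `P = {F_φ}`. -/
def PSP_stmt : Prop :=
  ∀ (k : ℕ), 1 ≤ k → ∀ J : ℕ → Submodule ℂ (MvPolynomial (Fin 2) ℂ), (∀ j, J j ≤ HS 2 j) →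
    J 0 = ⊥ →
    ∃ P : Submodule ℂ (MvPolynomial (Fin 2) ℂ),
      (k + 2).choose 2 ≤ Module.finrank ℂ ↥P +
        (∑ j ∈ Finset.range (k + 1), Module.finrank ℂ ↥(J j)) + 1 ∧
      (∀ F ∈ P, F.totalDegree ≤ k ∧ coeff 0 F = 0) ∧
      ∀ F ∈ P, ∃ φ : MvPolynomial (Fin 2) ℂ →ₗ[ℂ] ℂ,
        (∀ j ≤ k, ∀ g ∈ J j, φ g = 0) ∧ (∀ j > k, ∀ g ∈ HS 2 j, φ g = 0) ∧
        ∀ α β q r : ℂ, q * eval ![α, β] (pderiv 0 F) + r * eval ![α, β] (pderiv 1 F) =
          φ ((C q * X 0 + C r * X 1) *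
            ∑ a ∈ Finset.range (k + 1), (-1) ^ a * (C α * X 0 + C β * X 1) ^ a)

/-- GRAD. The graded case of (1). May assume: `PSP`, `LEMG`, `DIM`.

Proof. `PSP` gives `P` with `dim P ≥ choose (k+2) 2 - 1 - ∑ dim J j ≥ 4k - 3 ≥ 3k - 1`; `LEMG` gives
points `(α_i, β_i)`. Put `lam i = ![α_i, β_i, 1]`. Claim: if `ξ ∈ KH lam (JH k J)` then with
`c_i = ξ i 2` we have `ξ i = c_i • lam i` and `∑ c_i = 0`. So `KH` is contained in the image of the
`(k-1)`-dimensional space `{c : ∑ c_i = 0}`.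
Proof of the claim. Let `δ : R3 → R2` be `X 2 ↦ 1`, and
`I = {f ∈ R2 : the homogeneous component of degree j of f is in J j for all j ≤ k}`. `I` is an
ideal: it is a subspace, and if `f ∈ I` then the component of degree `j+1 ≤ k` of `X 0 * f` is
`X 0` times the component of degree `j`, in `J (j+1)`, the component of degree `0` is `0`; same for
`X 1`. `I` contains the polynomials whose components of degree `≤ k` vanish, and `δ (JH k J) ⊆ I`.
Let `p_l = α_l x + β_l y`, `inv_l = ∑_{a≤k} (-p_l)^a`; `(1 + p_l) inv_l = 1 - (-p_l)^(k+1) ≡ 1 mod I`.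
`δ(Theta lam ξ) = ∑_i (ξ_{i0} x + ξ_{i1} y + c_i) ∏_{l≠i} (1 + p_l) ∈ I`; multiply by `∏_l inv_l`:
`∑_i (ξ_{i0} x + ξ_{i1} y + c_i) inv_i ∈ I` (congruences mod the ideal `I`). With
`q_i = ξ_{i0} - c_i α_i`, `r_i = ξ_{i1} - c_i β_i` we have
`ξ_{i0} x + ξ_{i1} y + c_i = c_i (1 + p_i) + (q_i x + r_i y)`, so
`∑ c_i + ∑_i (q_i x + r_i y) inv_i ∈ I`. Component of degree 0: `∑ c_i ∈ J 0 = ⊥`, so `∑ c_i = 0`,
and `h = ∑_i (q_i x + r_i y) inv_i ∈ I`. For `F ∈ P` and its `φ`: `φ h = 0` (sum over the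
components), i.e. `∑_i (q_i ∂_0 F(pt_i) + r_i ∂_1 F(pt_i)) = 0`. By `LEMG`, `q = r = 0`. -/
def GRAD_stmt : Prop :=
  ∀ (k : ℕ), 2 ≤ k → ∀ J : ℕ → Submodule ℂ (MvPolynomial (Fin 2) ℂ), (∀ j, J j ≤ HS 2 j) →
    J 0 = ⊥ → (∀ j < k, ∀ g ∈ J j, X 0 * g ∈ J (j + 1) ∧ X 1 * g ∈ J (j + 1)) →
    (∑ j ∈ Finset.range (k + 1), Module.finrank ℂ ↥(J j)) + (4 * k - 2) ≤ (k + 2).choose 2 →
    ∃ lam : Fin k → Fin 3 → ℂ, Module.finrank ℂ ↥(KH lam (JH k J)) ≤ k - 1

/-- DEGEN. Degeneration of `H` to its leading pieces. May assume: `PM`, `SCK`, `DIM`, `TRANS`.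

Proof. (i) For `i = 0..k+1` let `H_i` be the space of the elements of `H` divisible by `z^i`
(`z = X 2`); `H_0 = H`, `H_{k+1} = 0`. The map `H_{k-j} → R2`, `z^{k-j} g' ↦ g'(x,y,0)`, has image
`JJ H k j` and kernel `H_{k-j+1}`. Sum the dimensions. (ii) For each `j ≤ k` choose a basis
`g_{j,a}` of `JJ H k j` and `g'_{j,a} ∈ HS 3 j` with `z0 g'_{j,a} = g_{j,a}`,
`h_{j,a} = z^{k-j} g'_{j,a} ∈ H`; the `h_{j,a}` are linearly independent (look at the lowest power of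
`z`), hence a basis of `H` by (i). For `s : ℂ` let `h_{j,a}(s) = z^{k-j} g'_{j,a}(x, y, s z)`, a
polynomial curve. `h_{j,a}(0) = z^{k-j} g_{j,a}(x,y)` is a basis of `JH k (JJ H k)`, and for `s ≠ 0`
`h_{j,a}(s) = s^{-(k-j)} • sb (diag(1,1,s)) h_{j,a}` is a basis of `H.map (sb (diag(1,1,s)))`. Consider
`T_s : (Fin k → Fin 3 → ℂ) × ℂ^B → R3`, `(ξ, c) ↦ Theta lam ξ - ∑ c_b h_b(s)` (`B` the index set of
the basis). As the `h_b(s)` are linearly independent, `ker T_s` is isomorphic to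
`{ξ : Theta lam ξ ∈ span h_b(s)}`; for `s = 0` this is `KH lam (JH k (JJ H k))`. By `SCK` there is
`s ≠ 0` with `finrank (ker T_s) ≤ r`, so `finrank (KH lam (H.map (sb (diag(1,1,s))))) ≤ r`; apply
`TRANS`. -/
def DEGEN_stmt : Prop :=
  ∀ (k : ℕ) (H : Submodule ℂ (MvPolynomial (Fin 3) ℂ)), H ≤ HS 3 k →
    (∑ j ∈ Finset.range (k + 1), Module.finrank ℂ ↥(JJ H k j)) = Module.finrank ℂ ↥H ∧
    ∀ (k' r : ℕ) (lam : Fin k' → Fin 3 → ℂ),
      Module.finrank ℂ ↥(KH lam (JH k (JJ H k))) ≤ r →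
      ∃ lam' : Fin k' → Fin 3 → ℂ, Module.finrank ℂ ↥(KH lam' H) ≤ r

/-- STAR1. Part (1). May assume: `CLOS`, `TRANS`, `GRAD`, `DEGEN`, `DIM`.

Proof. `dim H < dim (HS 3 k)`, so `CLOS` gives `z ≠ 0`. Choose `g` invertible with
`z ᵥ* g = ![0,0,1]`; `H' = H.map (sb g)`, so `sb g (lf z) = X 2`. `JJ H' k` satisfies the
hypotheses of `GRAD`: `JJ H' k 0 = ⊥` because a constant `γ` with `X 2 ^ k * γ ∈ H'` gives
`γ (lf z)^k ∈ H`. Let `j < k` and `G ∈ JJ H' k j`: `G = z0 g1'` with `X 2 ^ (k-j) * g1' ∈ H'`,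
`g1' ∈ HS 3 j`; write `g1' = sb g g1`, so `(lf z)^(k-j) g1 ∈ H`. Let `c` with `c ᵥ* g = ![1,0,0]`,
`sb g (lf c) = X 0`. `CLOS` gives `g'` with `(lf z)^(k-j-1) (lf c g1 - lf z g') ∈ H`; apply `sb g`:
`X 2 ^ (k-(j+1)) * (X 0 * g1' - X 2 * sb g g') ∈ H'`, and `z0` of the bracket is `X 0 * G`. Same for
`X 1`. The sum of the dimensions is `finrank H' = finrank H` (`DEGEN`). So `GRAD`, then `DEGEN` (ii),
then `TRANS`. -/
def STAR1_stmt : Prop :=
  ∀ (k : ℕ), 2 ≤ k → ∀ H : Submodule ℂ (MvPolynomial (Fin 3) ℂ), H ≤ HS 3 k →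
    Module.finrank ℂ ↥H + (4 * k - 2) ≤ (k + 2).choose 2 →
    ∃ lam : Fin k → Fin 3 → ℂ, Module.finrank ℂ ↥(KH lam H) ≤ k - 1

/-! ## G. Part (2) of Lemma A -/

/-- BKER. The kernel for lines in general position.

Proof. `ζ ∈ ZV lam ∅` iff `(ζ_i - ζ_j) ⬝ p_{ij} = 0` for all `i ≠ j`. Facts: `cr a b` is orthogonal to
`a` and to `b`; if `cr a b ≠ 0` then a vector orthogonal to `cr a b` is a combination of `a` and
`b`. The vectors `ζ_i = ξ + c_i • lam i` (`ξ ∈ ℂ^3`, `c ∈ ℂ^k`) are in `ZV lam ∅`, and the map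
`(ξ, c) ↦ ζ` is injective: if `ξ + c_i lam i = 0` for all `i`, then (with `k ≥ 2`) `ξ` is a multiple
of `lam 0` and of `lam 1`, which are independent, so `ξ = 0` and `c = 0` (`lam i ≠ 0`).
Conversely let `ζ ∈ ZV lam ∅`. Subtract `ξ = ζ_0`: we may assume `ζ_0 = 0`. For `j ≥ 1`:
`ζ_j ⬝ p_{0j} = 0`, so `ζ_j = d_j lam 0 + c_j lam j`. For `i ≠ j` both `≥ 1`:
`0 = (ζ_i - ζ_j) ⬝ p_{ij} = (d_i - d_j) (lam 0 ⬝ p_{ij})`, so `d_i = d_j = d`. Then
`ζ_j = d lam 0 + c_j lam j` for `j ≥ 1` and `ζ_0 = d lam 0 + (-d) lam 0`. So the map is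
surjective, and the dimension is `k + 3`. -/
def BKER_stmt : Prop :=
  ∀ (k : ℕ), 2 ≤ k → ∀ lam : Fin k → Fin 3 → ℂ, Gen lam →
    Module.finrank ℂ ↥(ZV lam (∅ : Finset (Edge k))) = k + 3

/-- KEREV. Forms vanishing at the nodes. May assume: `DIM`.

Proof. `eval (cr (lam i) (lam j)) (lf c) = c ⬝ᵥ cr (lam i) (lam j)`. `Lam2 lam i j` does not vanish at
`p_{ij}` (general position) and vanishes at the other nodes; multiplying by the square of a
linear form not vanishing at `p_{ij}` gives a form of degree `k` that vanishes exactly at the other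
nodes, so the evaluation `HS 3 k → (Edge k → ℂ)` (choose an order `i < j` for each pair) is
surjective and its kernel has dimension `choose (k+2) 2 - choose k 2 = 2k + 1`. The range of
`Theta lam` lies in the kernel (`Lam lam i` vanishes at all nodes) and has dimension
`3k - finrank (KH lam ⊥) ≥ 2k + 1`. So they are equal. -/
def KEREV_stmt : Prop :=
  ∀ (k : ℕ), 2 ≤ k → ∀ lam : Fin k → Fin 3 → ℂ, Gen lam →
    Module.finrank ℂ ↥(KH lam (⊥ : Submodule ℂ (MvPolynomial (Fin 3) ℂ))) ≤ k - 1 →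
    ∀ h ∈ HS 3 k, (∀ i j, i ≠ j → eval (cr (lam i) (lam j)) h = 0) → ∃ ξ, Theta lam ξ = h

/-- MINGEN. Very general lines. May assume: `PM`, `LO`, `DIM`, `STAR1`.

Proof. Consider in the space `P = Fin k → Fin 3 → ℂ` of the `lam`: `U_0 = {Gen lam}`: a finite
intersection of conditions `polynomial ≠ 0` (for `cr ≠ 0` one may use: some coordinate is nonzero,
a union; line-openness is clear: on a line the coordinate is a polynomial function of `t`, nonzero
at `t = 0`), nonempty because of `lam i = ![1, i, i^2]` (Vandermonde determinants). `U_1 = {finrank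
(KH lam H) ≤ k - 1}`: `KH lam H` is the kernel of `mkQ H ∘ Theta lam`, line-open by `LO.ker`
(`PM`), nonempty by `STAR1`. For every `A`, `U_A = {finrank (HV lam H A) ≤ r_A}` with `r_A` the
minimum over all `lam`: `HV lam H A` is (isomorphic to) the kernel of the map
`H → (Fin k × Fin k → ℂ)` whose `(i,j)` coordinate is `eval (cr (lam i) (lam j)) h` if
`i ≠ j, {i,j} ∉ A` and `0` otherwise; polynomial on lines; nonempty by definition of the
minimum. Same for `ZV lam A` with its minimum `r'_A`. By `LO.all`/`LO.inter_ne` choose `lam` in all of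
these; then `finrank (HV lam H A) = r_A`, `finrank (ZV lam A) = r'_A` for all `A`.
Finally `r_{σA} = r_A`: `HV (lam ∘ σ) H A = HV lam H (σA)` because `{i,j} ∉ A` iff
`{σ i, σ j} ∉ σA`, so the set of the values `finrank (HV lam H A)`, `lam ∈ P`, is the same for `A` and
for `σA`. And `ZV (lam ∘ σ) A` is isomorphic to `ZV lam (σA)` by `ζ ↦ ζ ∘ σ⁻¹`. -/
def MINGEN_stmt : Prop :=
  ∀ (k : ℕ), 2 ≤ k → ∀ H : Submodule ℂ (MvPolynomial (Fin 3) ℂ), H ≤ HS 3 k →
    Module.finrank ℂ ↥H + (4 * k - 2) ≤ (k + 2).choose 2 →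
    ∃ lam : Fin k → Fin 3 → ℂ, Gen lam ∧ Module.finrank ℂ ↥(KH lam H) ≤ k - 1 ∧
      ∀ (σ : Equiv.Perm (Fin k)) (A : Finset (Edge k)),
        Module.finrank ℂ ↥(HV lam H (A.map (edPerm σ).toEmbedding)) =
          Module.finrank ℂ ↥(HV lam H A) ∧
        Module.finrank ℂ ↥(ZV lam (A.map (edPerm σ).toEmbedding)) =
          Module.finrank ℂ ↥(ZV lam A)

/-- PART. Partition lemma for two supermodular functions.

Proof. Induction on `|E|` (for all `w, b`). `E = ∅`: `w ∅ + b ∅ ≤ 0`, take `Z = ∅`. Let `e ∈ E`,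
`E' = E.erase e`.
Option 1 (put `e` in `Z`): if `w A + b (insert e A) ≤ |A|` for all `A ⊆ E'`, apply the induction to
`E'`, `w`, `A ↦ b (insert e A)` (supermodular on `E'`): there is `Z' ⊆ E'` with `w (E' \ Z') = 0` and
`b (insert e Z') = 0`; take `Z = insert e Z'`, `E \ Z = E' \ Z'`.
Option 2: if `w (insert e A) + b A ≤ |A|` for all `A ⊆ E'`, the induction gives `Z' ⊆ E'` with
`w (insert e (E' \ Z')) = 0`, `b Z' = 0`; take `Z = Z'`, `E \ Z = insert e (E' \ Z')`.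
If both fail there are `A, B ⊆ E'` with `w A + b (insert e A) ≥ |A| + 1` and
`w (insert e B) + b B ≥ |B| + 1`. Supermodularity for the pairs `(A, insert e B)` and
`(insert e A, B)`: `w A + w (insert e B) ≤ w (insert e (A ∪ B)) + w (A ∩ B)` and
`b (insert e A) + b B ≤ b (insert e (A ∪ B)) + b (A ∩ B)`. Summing,
`|A| + |B| + 2 ≤ (w + b)(insert e (A ∪ B)) + (w + b)(A ∩ B) ≤ |A ∪ B| + 1 + |A ∩ B|`, a
contradiction. -/
def PART_stmt : Prop :=
  ∀ (α : Type) [DecidableEq α] (E : Finset α) (w b : Finset α → ℕ),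
    (∀ A B, A ⊆ E → B ⊆ E → w A + w B ≤ w (A ∪ B) + w (A ∩ B)) →
    (∀ A B, A ⊆ E → B ⊆ E → b A + b B ≤ b (A ∪ B) + b (A ∩ B)) →
    (∀ A, A ⊆ E → w A + b A ≤ A.card) →
    ∃ Z ⊆ E, w (E \ Z) = 0 ∧ b Z = 0

/-- INV. Maxima of invariant supermodular functions.

Proof. Let `M` be the maximum of `f` and `A*` the union of all the maximisers; by supermodularity
the union of two maximisers is a maximiser (`f A + f B ≤ f (A ∪ B) + f (A ∩ B)` and both terms on the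
right are `≤ M`), so `A*` is a maximiser, and the largest one. For `σ ∈ Φ`, `σ A*` is a
maximiser, so `σ A* ⊆ A*`, and `σ A* = A*` by cardinality. If `A* = ∅` then `M = f ∅`. Otherwise let
`x ∈ A*`; for every `y` there is `σ ∈ Φ` with `σ x = y`, so `y ∈ A*`: `A* = univ`, `M = f univ`. -/
def INV_stmt : Prop :=
  ∀ (α : Type) [Fintype α] [DecidableEq α] (f : Finset α → ℤ) (Φ : Set (Equiv.Perm α)),
    (∀ A B, f A + f B ≤ f (A ∪ B) + f (A ∩ B)) →
    (∀ x y, ∃ σ ∈ Φ, σ x = y) →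
    (∀ σ ∈ Φ, ∀ A : Finset α, f (A.map σ.toEmbedding) = f A) →
    ∀ A, f A ≤ max (f ∅) (f Finset.univ)

/-- PARTZ. The partition of the nodes. May assume: `PART`, `INV`, `BKER`, `KEREV`, `DIM`.

Proof. Let `w A = finrank (HV lam H A)`, `b A = finrank (ZV lam A) - (k + 3)`
(`finrank (ZV lam A) ≥ k + 3` by monotonicity and `BKER`). Both are supermodular:
`HV lam H A ⊓ HV lam H B = HV lam H (A ∩ B)` and `HV lam H A ⊔ HV lam H B ≤ HV lam H (A ∪ B)`, with
`Submodule.finrank_sup_add_finrank_inf_eq`; same for `ZV`.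
`w ∅ = 0`: an `h ∈ H` vanishing at all nodes is `Theta lam ξ` by `KEREV` (`KH lam ⊥ ≤ KH lam H`), so
`ξ ∈ KH lam H`; the space `{(c_i • lam i)_i : ∑ c_i = 0}` has dimension `k - 1` (`lam i ≠ 0`), and is
contained in `KH lam ⊥` (`∑ c_i λ_i Λ_i = (∑ c_i) ∏ λ_l = 0`), hence equal to `KH lam H`, so
`KH lam H = KH lam ⊥` and `h = Theta lam ξ = 0`. `b ∅ = 0` by `BKER`.
`w univ = finrank H`, `b univ = 3k - (k+3) = 2k - 3`, and
`finrank H + 2k - 3 ≤ choose (k+2) 2 - (4k-2) + 2k - 3 = choose k 2 = |Edge k|`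
(`Sym2.card_subtype_not_diag`).
`INV` with `f A = w A + b A - |A|` and `Φ = {edPerm σ}` (transitive on pairs) gives
`f A ≤ max (f ∅) (f univ) ≤ 0` for all `A`. `PART` (with `E = univ`) gives `Z` with `w (univ \ Z) = 0` and
`b Z = 0`, i.e. `HV lam H (univ \ Z) = ⊥` (the elements of `H` vanishing at the nodes in `Z` are
zero) and `ZV lam Z = ZV lam ∅`. -/
def PARTZ_stmt : Prop :=
  ∀ (k : ℕ), 2 ≤ k → ∀ H : Submodule ℂ (MvPolynomial (Fin 3) ℂ), H ≤ HS 3 k →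
    Module.finrank ℂ ↥H + (4 * k - 2) ≤ (k + 2).choose 2 →
    ∀ lam : Fin k → Fin 3 → ℂ, Gen lam → Module.finrank ℂ ↥(KH lam H) ≤ k - 1 →
    (∀ (σ : Equiv.Perm (Fin k)) (A : Finset (Edge k)),
        Module.finrank ℂ ↥(HV lam H (A.map (edPerm σ).toEmbedding)) =
          Module.finrank ℂ ↥(HV lam H A) ∧
        Module.finrank ℂ ↥(ZV lam (A.map (edPerm σ).toEmbedding)) =
          Module.finrank ℂ ↥(ZV lam A)) →
    ∃ Z : Finset (Edge k),
      (∀ h ∈ H, (∀ i j (hij : i ≠ j), ed i j hij ∈ Z → eval (cr (lam i) (lam j)) h = 0) →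
        h = 0) ∧
      ZV lam Z ≤ ZV lam ∅

/-- COUNT. The dimension of the limit space. May assume: `BKER`, `DIM`.

Proof. Let `T : (Fin k → Fin 3 → ℂ) × (Fin k → Fin 3 → ℂ) × H → R3`,
`(ξ, ζ, h) ↦ Theta lam ξ + ∑ lf (ζ i) * gg lam n i - h`. Its range is `H ⊔ SS lam n` (linear forms are
combinations of the variables), its source has dimension `6k + finrank H`. Kernel: evaluate at
`p = p_{ij}`, `i ≠ j`: `Theta lam ξ` vanishes at `p`, `gg lam n l` vanishes at `p` unless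
`l ∈ {i,j}`, because `Lam2 lam l m` vanishes at `p` unless `{l,m} = {i,j}`; so with
`λ(p) := eval p (Lam2 lam i j) ≠ 0` (general position) and antisymmetry
`h(p) = λ(p) n_{ij}(p) (ζ_i - ζ_j)(p)`. For `{i,j} ∈ Z` we get `h(p) = 0`, so `h = 0` by the
hypothesis on `Z`. Then for `{i,j} ∉ Z`, `(ζ_i - ζ_j)(p) = 0` as `n_{ij}(p) ≠ 0`; so
`ζ ∈ ZV lam Z ≤ ZV lam ∅`, of dimension `k + 3`. The kernel of the projection of the kernel to `ζ` is
`{(ξ, 0, 0) : Theta lam ξ = 0} = KH lam ⊥`, of dimension `≤ k - 1`. So `dim ker T ≤ 2k + 2` and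
`rank T ≥ 6k + finrank H - 2k - 2 = finrank H + 4k - 2`. -/
def COUNT_stmt : Prop :=
  ∀ (k : ℕ), 2 ≤ k → ∀ H : Submodule ℂ (MvPolynomial (Fin 3) ℂ), H ≤ HS 3 k →
    ∀ lam : Fin k → Fin 3 → ℂ, Gen lam →
    Module.finrank ℂ ↥(KH lam (⊥ : Submodule ℂ (MvPolynomial (Fin 3) ℂ))) ≤ k - 1 →
    ∀ Z : Finset (Edge k),
      (∀ h ∈ H, (∀ i j (hij : i ≠ j), ed i j hij ∈ Z → eval (cr (lam i) (lam j)) h = 0) →
        h = 0) →
      ZV lam Z ≤ ZV lam ∅ →
    ∀ n : Fin k → Fin k → Fin 3 → ℂ, (∀ i j, n j i = - n i j) →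
      (∀ i j (hij : i ≠ j), ed i j hij ∈ Z → n i j = 0) →
      (∀ i j (hij : i ≠ j), ed i j hij ∉ Z → n i j ⬝ᵥ cr (lam i) (lam j) ≠ 0) →
      Module.finrank ℂ ↥H + (4 * k - 2) ≤ Module.finrank ℂ ↥(H ⊔ SS lam n)

/-- ADJD. First order expansion of the adjugate near a diagonal matrix. May assume: `PM`.

Proof. Let `M(t) = diagonal d + t • N`; the entries of `adj M(t)` are polynomial in `t` (`PM`), and
`adj M(0) = diagonal (∏_{l≠i} d_l)` (`Matrix.adjugate_diagonal`). Let `i ≠ j`, `a(t) = adj M(t)_{ij}`,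
`a(0) = 0`, so `a(t) = t • b(t)` (`PM.div`). The `(i,j)` entry of `M(t) * adj M(t) = det M(t) • 1` is
`d_i a(t) + t • ∑_l N_{il} adj M(t)_{lj} = 0`; so for `t ≠ 0`, hence for all `t` (polynomial
curves), `d_i b(t) = - ∑_l N_{il} adj M(t)_{lj}`. At `t = 0`:
`d_i b(0) = - N_{ij} ∏_{l≠j} d_l = - d_i N_{ij} ∏_{l≠i,j} d_l`; cancel `d_i ≠ 0`. Finally
`b(t) = b(0) + t • g(t)`. -/
def ADJD_stmt : Prop :=
  ∀ (A : Type) [CommRing A] [IsDomain A] [Algebra ℂ A] (k : ℕ) (d : Fin k → A)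
    (N : Matrix (Fin k) (Fin k) A), (∀ i, d i ≠ 0) → ∀ i j : Fin k, i ≠ j →
    ∃ g : ℂ → A, IsPolyMap g ∧ ∀ t : ℂ, (Matrix.diagonal d + t • N).adjugate i j =
      - (t • (N i j * ∏ l ∈ (Finset.univ.erase i).erase j, d l)) + t ^ 2 • g t

/-- BASECH. Change of basis from `(1,...,1)` to the first basis vector.

Proof. Let `L` be the constant matrix with first column `(1,...,1)` and the other columns those of the
identity; `K = L⁻¹` has first column `(1,-1,...,-1)` and the other columns those of the identity;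
`K * L = 1`, `det K = det L = 1`, so `adj K = L`, `adj Kᵀ = Lᵀ`. Put `M' = K * M * Kᵀ`, a matrix of
linear forms (constants times linear forms). `adj M' = Lᵀ * adj M * L`
(`Matrix.adjugate_mul_distrib`). Its first column is `Lᵀ *ᵥ (adj M *ᵥ 1)`, so
`adj M *ᵥ 1 = Kᵀ *ᵥ (first column of adj M')`, whose entries are constant combinations of the entries
of the first column. Same for the first row: `1 ᵥ* adj M = (first row of adj M') ᵥ* K`. -/
def BASECH_stmt : Prop :=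
  ∀ (m : ℕ) (M : Matrix (Fin (m + 1)) (Fin (m + 1)) (MvPolynomial (Fin 3) ℂ)), IsLin M →
    ∃ M' : Matrix (Fin (m + 1)) (Fin (m + 1)) (MvPolynomial (Fin 3) ℂ), IsLin M' ∧
      ∀ (a : Fin 3) (i : Fin (m + 1)), X a * (∑ j, M.adjugate i j) ∈ tauM M' ∧
        X a * (∑ j, M.adjugate j i) ∈ tauM M'

/-- STARLIM. The limit of the star matrices. May assume: `PM`, `SC`, `ADJD`, `BASECH`, `DIM`.

Proof. Put `N_{ij} = lf (n i j)` for `i < j` and `0` otherwise,
`M(t) = diagonal (lf (lam i)) + t • N`, a matrix of linear forms. Curves (all polynomial):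
`F_{a,i}(t) = X_a * ∑_j adj M(t)_{ij}`; `F_{a,i}(0) = X_a Λ_i`
(`Matrix.adjugate_diagonal`). By `ADJD`,
`∑_j adj M(t)_{ij} - ∑_j adj M(t)_{ji} = ∑_{j≠i} (adj M(t)_{ij} - adj M(t)_{ji})
= - t • (∑_{j≠i} (N_{ij} - N_{ji}) Λ_{ij}) + t^2 • G_i(t) = - t • (g_i - t • G_i(t))`, since
`N_{ij} - N_{ji} = lf (n i j)` for `i < j` and `- lf (n j i) = lf (n i j)` for `i > j`. The
curves `F'_{a,i}(t) = X_a * (g_i - t • G_i(t))` are in the span of `X_a * ∑_j adj M(t)_{ij}` and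
`X_a * ∑_j adj M(t)_{ji}` for `t ≠ 0`, and equal `X_a g_i` at `t = 0`. By `SC` there is `t ≠ 0`
with `finrank (H ⊔ span {F(t), F'(t)}) ≥ finrank (H ⊔ SS lam n)`; take `M'` from `BASECH` for
`M(t)` (everything is finite-dimensional, in degree `m + 1`). -/
def STARLIM_stmt : Prop :=
  ∀ (m : ℕ) (H : Submodule ℂ (MvPolynomial (Fin 3) ℂ)), H ≤ HS 3 (m + 1) →
    ∀ lam : Fin (m + 1) → Fin 3 → ℂ, (∀ i, lam i ≠ 0) →
    ∀ n : Fin (m + 1) → Fin (m + 1) → Fin 3 → ℂ, (∀ i j, n j i = - n i j) →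
    ∃ M : Matrix (Fin (m + 1)) (Fin (m + 1)) (MvPolynomial (Fin 3) ℂ), IsLin M ∧
      Module.finrank ℂ ↥(H ⊔ SS lam n) ≤ Module.finrank ℂ ↥(H ⊔ tauM M)

end Pool.Agent.Helper68.DS
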