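import Pool.Agent.Helper68.DS.Goals

set_option autoImplicit false

/-!
# MP_52cd29_ag Q1 (sums of determinants): statements of the packets, part 3: the explicit designs

All the inequalities were checked by two independent programs.
-/

namespace Pool.Agent.Helper68.DS

open MvPolynomial

/-- The families: for `n`, the list of (label, α, c) for the blocks of length `α q + c`. -/
def fam : ℕ → List (ℕ × ℕ × ℕ)
  | 1 => [(0, 12, 18)]
  | 2 => [(0, 12, 19)]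
  | 3 => [(0, 12, 20)]
  | 4 => [(0, 12, 21)]
  | 5 => [(0, 6, 8), (1, 6, 14)]
  | 6 => [(0, 6, 7), (1, 0, 1), (2, 6, 15)]
  | 7 => [(0, 6, 15), (1, 0, 1), (2, 0, 1), (3, 6, 7)]
  | 8 => [(0, 6, 15), (1, 0, 1), (2, 0, 1), (3, 0, 1), (4, 6, 7)]
  | 9 => [(0, 2, 2), (1, 4, 8), (4, 0, 4), (3, 0, 1), (2, 2, 2), (5, 0, 4), (1, 2, 4), (3, 2, 1)]
  | 10 => [(0, 2, 2), (4, 0, 1), (2, 2, 1), (5, 0, 1), (6, 0, 1), (4, 0, 1), (1, 2, 4),
      (2, 0, 1), (3, 4, 11), (1, 0, 3), (4, 2, 1)]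
  | 11 => [(0, 4, 1), (6, 0, 10), (7, 0, 1), (6, 0, 1), (5, 2, 6), (4, 0, 6), (3, 0, 1),
      (2, 0, 1), (1, 2, 1), (2, 0, 3), (1, 0, 3), (3, 2, 1), (1, 0, 2), (2, 0, 2), (4, 2, 1)]
  | 12 => [(0, 4, 44), (8, 0, 1), (7, 0, 1), (6, 0, 1), (5, 2, 27), (1, 0, 1), (2, 0, 1),
      (3, 0, 1), (4, 2, 16), (1, 0, 1), (2, 0, 3), (3, 0, 1), (4, 2, 16), (1, 0, 2),
      (2, 0, 1), (3, 0, 2), (4, 2, 18)]
  | _ => []

/-- The sporadic designs: for `k`, the list of (label, 0, length). -/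
def spor : ℕ → List (ℕ × ℕ × ℕ)
  | 4 => [(0, 0, 4)]
  | 5 => [(0, 0, 5)]
  | 6 => [(0, 0, 6)]
  | 7 => [(0, 0, 7)]
  | 8 => [(0, 0, 4), (1, 0, 4)]
  | 9 => [(0, 0, 5), (1, 0, 1), (2, 0, 3)]
  | 10 => [(0, 0, 5), (1, 0, 1), (2, 0, 1), (3, 0, 3)]
  | 11 => [(0, 0, 6), (1, 0, 1), (2, 0, 1), (3, 0, 1), (4, 0, 2)]
  | 12 => [(0, 0, 1), (6, 0, 1), (1, 0, 1), (3, 0, 4), (2, 0, 1), (4, 0, 4)]
  | 13 => [(0, 0, 1), (6, 0, 1), (5, 0, 1), (4, 0, 2), (2, 0, 1), (1, 0, 4), (3, 0, 3)]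
  | 14 => [(0, 0, 1), (7, 0, 1), (6, 0, 2), (5, 0, 3), (1, 0, 3), (2, 0, 2), (4, 0, 1), (3, 0, 1)]
  | 15 => [(0, 0, 1), (8, 0, 1), (3, 0, 1), (6, 0, 5), (1, 0, 1), (2, 0, 3), (4, 0, 1),
      (5, 0, 1), (7, 0, 1)]
  | 28 => [(0, 0, 10), (2, 0, 1), (1, 0, 3), (3, 0, 5), (4, 0, 2), (5, 0, 1), (6, 0, 1),
      (7, 0, 5)]
  | 53 => [(0, 0, 13), (8, 0, 1), (7, 0, 1), (6, 0, 1), (5, 0, 12), (2, 0, 1), (1, 0, 1),
      (4, 0, 1), (3, 0, 10), (1, 0, 4), (3, 0, 2), (2, 0, 1), (4, 0, 5)]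
  | 65 => [(0, 0, 14), (3, 0, 4), (1, 0, 2), (2, 0, 1), (4, 0, 7), (3, 0, 1), (4, 0, 1),
      (2, 0, 1), (1, 0, 14), (5, 0, 1), (6, 0, 1), (7, 0, 1), (8, 0, 6), (7, 0, 4), (5, 0, 5),
      (8, 0, 2)]
  | 77 => [(0, 0, 13), (4, 0, 1), (3, 0, 2), (1, 0, 3), (2, 0, 15), (4, 0, 1), (3, 0, 1),
      (2, 0, 1), (1, 0, 16), (5, 0, 1), (6, 0, 1), (7, 0, 1), (8, 0, 3), (5, 0, 6), (7, 0, 1),
      (5, 0, 3), (6, 0, 2), (7, 0, 3), (7, 0, 1), (8, 0, 2)]
  | 89 => [(0, 0, 6), (7, 0, 8), (7, 0, 2), (8, 0, 3), (6, 0, 6), (8, 0, 1), (7, 0, 1),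
      (6, 0, 1), (5, 0, 18), (2, 0, 1), (3, 0, 1), (1, 0, 1), (4, 0, 4), (1, 0, 14),
      (2, 0, 3), (1, 0, 1), (3, 0, 1), (4, 0, 17)]
  | 101 => [(0, 0, 5), (5, 0, 3), (8, 0, 5), (7, 0, 1), (7, 0, 2), (5, 0, 6), (5, 0, 5),
      (8, 0, 1), (7, 0, 1), (6, 0, 1), (5, 0, 19), (3, 0, 1), (1, 0, 1), (2, 0, 1), (4, 0, 5),
      (2, 0, 7), (3, 0, 3), (2, 0, 1), (1, 0, 1), (4, 0, 30), (1, 0, 2)]
  | 113 => [(0, 0, 9), (5, 0, 3), (6, 0, 9), (6, 0, 12), (8, 0, 1), (7, 0, 1), (6, 0, 2),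
      (5, 0, 21), (3, 0, 1), (1, 0, 1), (4, 0, 1), (2, 0, 2), (1, 0, 3), (1, 0, 10),
      (2, 0, 8), (1, 0, 1), (3, 0, 1), (2, 0, 1), (4, 0, 26)]
  | 125 => [(0, 0, 2), (3, 0, 23), (4, 0, 1), (1, 0, 2), (3, 0, 2), (2, 0, 7), (3, 0, 3),
      (4, 0, 1), (2, 0, 1), (1, 0, 5), (1, 0, 8), (4, 0, 1), (3, 0, 1), (1, 0, 1), (2, 0, 24),
      (5, 0, 2), (6, 0, 1), (7, 0, 1), (8, 0, 10), (6, 0, 1), (7, 0, 7), (7, 0, 3), (8, 0, 3),
      (6, 0, 4), (6, 0, 11)]
  | _ => []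

/-- The block design with parameter `q`. -/
def inst (q : ℕ) (L : List (ℕ × ℕ × ℕ)) : List (ℕ × ℕ) := L.map fun p => (p.1, p.2.1 * q + p.2.2)

/-- `bl` is a valid design for the step from `k - n` to `k` with `s` old objects. -/
def Good (bl : List (ℕ × ℕ)) (k n s : ℕ) : Prop :=
  Valid bl ∧ total bl = k ∧ StepIneq k n s (gcount bl)

/-- DESIGN. The explicit designs with common walls satisfy the numerical conditions.

Recommended proof: a verified Boolean checker. For fixed `q` every member of `inst q L` has length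
`α q + c` with `c ≥ 1`. All quantities are polynomials of degree `≤ 2` in `q`. Define for a list
`L : List (ℕ × ℕ × ℕ)` and a label `i` the triple `(A, B, C)` of naturals with
`2 * gcount (inst q L) i ≥ A q^2 + B q + C` for all `q`:
* `inner (α q + c) i`: twice it is `(αq+c)(αq+c+1)` for `i = 1, 2`, `(αq+c)(αq+c-1)` for `i = 3`,
  `(αq+c-1)(αq+c-2)` for `i = 4`: coefficients `(α², 2αc+α, c²+c)`, `(α², 2αc-α, c²-c)`,
  `(α², 2αc-3α, c²-3c+2)` (for `i = 4` the middle one may be negative when `c = 1`: use `ℤ`, or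
  the whole check in `ℤ`);
* `crossOne S (αq+c) (α'q+c') e i`: `0` if `i ∈ S` or `rk S i ≥ 4`, otherwise
  `(αq+c)(α'q+c') - corr`, with `corr = 0` for `rk ≤ 1`; for `rk = 2`: `corr ≤ 1` if `e0 = 0`
  and `0` otherwise; for `rk = 3`: `corr ≤ 1 + s + s'` if `e0 = 0` (`s = 0` if `(α,c) = (0,1)` and `1`
  otherwise, same for `s'`), `1` if `e0 = 1`, `0` if `e0 ≥ 2`, where `e0` is the sum of the
  `c_r - 1` over the blocks in between (the true `e` is `≥ e0`, and the correction decreases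
  with `e`).
The condition `StepIneq` doubled: `(k-i+3)(k-i+2) ≤ 2 s (4(k-i+1)-2) + 2 [i=1] (k+1) + 2 gcount i`
with `k = K1 q + K0`, `s = S1 q + S0`; it is enough to compare the three coefficients (this
coefficientwise comparison is true for all the designs below). Then prove soundness once and
evaluate the checker with `decide +kernel`. The sporadic designs are the case `α = 0` (they can also be
checked directly: `StepIneq` is decidable for numbers). -/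
def DESIGN_stmt : Prop :=
  (∀ k, 4 ≤ k → k ≤ 15 → Good (inst 0 (spor k)) k (k - 3) 1) ∧
  Good (inst 0 (spor 28)) 28 11 2 ∧
  (∀ q, 2 ≤ q → q ≤ 8 → Good (inst 0 (spor (12 * q + 29))) (12 * q + 29) 12 (q + 2)) ∧
  (∀ n q, 1 ≤ n → n ≤ 10 → Good (inst q (fam n)) (12 * q + 17 + n) n (q + 2)) ∧
  (∀ q, Good (inst q (fam 11)) (12 * q + 40) 11 (q + 3)) ∧
  (∀ q, Good (inst q (fam 12)) (12 * q + 137) 12 (q + 11))

/-- The walls above the diagonal in the four designs with separate walls (label at the position `m`, `0` = free). -/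
def sepU : ℕ → List ℕ
  | 16 => [1, 0, 5, 0, 9, 1, 3, 7, 4, 9, 9, 2, 0, 6, 8]
  | 17 => [9, 7, 8, 4, 8, 3, 3, 0, 1, 2, 6, 1, 4, 5, 0, 5]
  | 29 => [6, 1, 0, 11, 2, 6, 6, 0, 0, 6, 4, 0, 0, 0, 4, 1, 2, 3, 1, 12, 2, 1, 5, 0, 7, 0, 0, 9]
  | 41 => [2, 0, 2, 10, 6, 0, 0, 8, 7, 4, 0, 1, 9, 4, 3, 8, 5, 0, 0, 2, 0, 3, 5, 1, 0, 0, 4, 3,
      3, 0, 0, 6, 0, 10, 2, 1, 0, 8, 11, 5]
  | _ => []

/-- The walls below the diagonal in the four designs with separate walls. -/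
def sepV : ℕ → List ℕ
  | 16 => [3, 7, 0, 0, 4, 6, 4, 1, 3, 5, 0, 2, 0, 8, 9]
  | 17 => [11, 8, 0, 6, 9, 12, 1, 5, 3, 7, 2, 4, 0, 0, 1, 13]
  | 29 => [0, 2, 3, 10, 9, 3, 0, 5, 1, 8, 4, 0, 8, 3, 2, 0, 6, 7, 3, 0, 5, 1, 0, 6, 0, 0, 8, 9]
  | 41 => [12, 2, 5, 3, 0, 0, 0, 2, 4, 0, 0, 0, 0, 0, 0, 0, 7, 7, 1, 0, 1, 3, 0, 2, 7, 0, 7, 0,
      11, 11, 5, 6, 1, 4, 0, 0, 4, 8, 0, 2]
  | _ => []

/-- The points: `μ_i = i² + 1`. -/
noncomputable def muS (i : ℕ) : ℂ := (i : ℂ) ^ 2 + 1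

/-- SEPDES. The four designs with separate walls.

Proof (verified numerical check). Fix `(k, n, s)`, `U m = (sepU k).getD m 0`,
`V m = (sepV k).getD m 0`, `μ_i = i² + 1`. For a window `a ≤ b < k` let
`p_i = ∏_{a≤m<b} uval U μ m μ_i`, `q_i = ∏_{a≤m<b} vval V μ m μ_i` (integers) and
`c_i = (p_i μ_i, p_i, q_i μ_i, q_i) ∈ ℤ⁴`. Let `A` be the set of the labels `i ≥ 1` occurring in
`U` on `[a,b)`, `B` those occurring in `V`. Note `p_i = 0` for `i ∈ A` and `q_i = 0` for `i ∈ B`.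
Define the list `J` of selected labels by running through `i = 1, 2, ..., n` and selecting `i`
unless (1) `i ∈ A ∩ B`, or (2) `i ∈ A \ B` and two elements of `A \ B` were already selected, or
(3) `i ∈ B \ A` and two elements of `B \ A` were already selected, or (4) `D` labels were already
selected, `D = min 4 (e + 2)`, `e = (b - a) - ∑_{i ≤ n} min (mult of i in U, mult of i in V)` (number of
occurrences on `[a,b)`) (any upper bound of the rank can be used here: what matters is only that the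
selected columns are independent). Check by computation modulo the prime `2^31 - 1` that the
vectors `c_j`, `j ∈ J`, are linearly independent (rank `|J|`; true for all windows of the four
designs). Then they are independent over `ℂ`.
Claim: every `i ∈ J` is a pivot (`PIV`). Indeed every `l < i` not in `J` has `c_l` in the span of the
`c_j`, `j ∈ J`, `j < i`: in case (1) `c_l = 0`; in case (2) `c_l ∈ {0} × ℂ²`, which is spanned by the two
selected ones (independent vectors of `{0} × ℂ²`); case (3) is similar; case (4) does not occur for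
`l < i ∈ J`. By independence there is `x = (α, β, γ, δ)` with `x ⬝ c_j = 0` for `j ∈ J`, `j < i`, and
`x ⬝ c_i = 1`; then `x ⬝ c_l = 0` for all `l < i`, which is `PIV`.
Finally count: `StepIneq k n s` holds for the numbers of windows selecting `i` (checked). In Lean:
write the selection as a computable function of `(a, b)`, prove its soundness for all windows by the
claim, and evaluate the checks with `decide +kernel` (at most 820 windows, 12 labels; natural numbers mod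
`2^31 - 1`, compute the products incrementally in `b`); the prime `2^31 - 1` may be replaced by
exact integer arithmetic (then no primality is needed: a nonzero determinant over `ℤ`;
recommended: check that some minor of the right size is nonzero, over `ℤ`, or modulo any integer). -/
def SEPDES_stmt : Prop :=
  ∀ k n s : ℕ, (k, n, s) ∈ ([(16, 13, 1), (17, 14, 1), (29, 12, 2), (41, 12, 3)] :
      List (ℕ × ℕ × ℕ)) →
    ∃ Jp : ℕ → ℕ → ℕ → Prop,
      (∀ a b i, a ≤ b → b < k → 1 ≤ i → i ≤ n → Jp a b i →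
        PIV (fun m => (sepU k).getD m 0) (fun m => (sepV k).getD m 0) muS a b i) ∧
      StepIneq k n s (cnt Jp k)

end Pool.Agent.Helper68.DS
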