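import Pool.Agent.Helper68.DS.Goals2

set_option autoImplicit false

/-!
# MP_52cd29_ag: assembly of Lemma A
-/

namespace Pool.Agent.Helper68.DS

open MvPolynomial

theorem cr_swap (a b : Fin 3 → ℂ) : cr b a = - cr a b := by
  ext i
  fin_cases i <;> simp [cr] <;> ring

theorem exists_sub_finrank {V : Type} [AddCommGroup V] [Module ℂ V] (H : Submodule ℂ V)
    [FiniteDimensional ℂ H] (d : ℕ) (hd : d ≤ Module.finrank ℂ H) :
    ∃ H' : Submodule ℂ V, H' ≤ H ∧ Module.finrank ℂ ↥H' = d := by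
  classical
  let b := Module.finBasis ℂ H
  let v : Fin d → V := fun i => (b (Fin.castLE hd i) : V)
  have hli : LinearIndependent ℂ v := by
    have h1 : LinearIndependent ℂ (fun i : Fin d => b (Fin.castLE hd i)) :=
      b.linearIndependent.comp _ (Fin.castLE_injective hd)
    exact h1.map' H.subtype (Submodule.ker_subtype H)
  refine ⟨Submodule.span ℂ (Set.range v), ?_, ?_⟩
  · rw [Submodule.span_le]
    rintro _ ⟨i, rfl⟩
    exact (b (Fin.castLE hd i)).2
  · rw [finrank_span_eq_card hli, Fintype.card_fin]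

theorem LEMA (hD : DIM_stmt) (h1 : MINGEN_stmt) (h2 : PARTZ_stmt) (h3 : COUNT_stmt)
    (h4 : STARLIM_stmt) : LEMA_stmt := by
  classical
  intro m hm H hH
  have hfd : FiniteDimensional ℂ ↥(HS 3 (m + 1)) := (hD 2 (m + 1)).1
  have hdim : Module.finrank ℂ ↥(HS 3 (m + 1)) = (m + 3).choose 2 := by
    rw [(hD 2 (m + 1)).2]
    congr 1
    omega
  have hfH : FiniteDimensional ℂ ↥H := Submodule.finiteDimensional_of_le hH
  have hch : 4 * m + 2 ≤ (m + 3).choose 2 := by
    obtain ⟨r, rfl⟩ := Nat.exists_eq_add_of_le hm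
    have e1 : (1 + r + 3).choose 2 = (r + 4) * (r + 3) / 2 := by
      rw [Nat.choose_two_right]
      congr 1
      have : 1 + r + 3 - 1 = r + 3 := by omega
      rw [this]; ring
    rw [e1, Nat.le_div_iff_mul_le (by norm_num)]
    nlinarith [sq_nonneg ((r : ℤ) - 0), Nat.zero_le (r * r)]
  obtain ⟨H', hH'le, hH'dim⟩ := exists_sub_finrank H
    (min (Module.finrank ℂ ↥H) ((m + 3).choose 2 - (4 * m + 2))) (min_le_left _ _)
  have hH'HS : H' ≤ HS 3 (m + 1) := hH'le.trans hH
  have hk : 2 ≤ m + 1 := by omega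
  have e4 : 4 * (m + 1) - 2 = 4 * m + 2 := by omega
  have hnum : Module.finrank ℂ ↥H' + (4 * (m + 1) - 2) ≤ (m + 1 + 2).choose 2 := by
    rw [hH'dim, e4]
    have := min_le_right (Module.finrank ℂ ↥H) ((m + 3).choose 2 - (4 * m + 2))
    have e5 : m + 1 + 2 = m + 3 := by omega
    rw [e5]
    omega
  obtain ⟨lam, hgen, hKH, hinv⟩ := h1 (m + 1) hk H' hH'HS hnum
  obtain ⟨Z, hZ1, hZ2⟩ := h2 (m + 1) hk H' hH'HS hnum lam hgen hKH hinv
  let n : Fin (m + 1) → Fin (m + 1) → Fin 3 → ℂ := fun i j =>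
    if h : ∃ hij : i ≠ j, ed i j hij ∉ Z then star (cr (lam i) (lam j)) else 0
  have hed : ∀ (i j : Fin (m + 1)) (hij : i ≠ j), ed j i hij.symm = ed i j hij := by
    intro i j hij
    apply Subtype.ext
    exact Sym2.eq_swap
  have hanti : ∀ i j, n j i = - n i j := by
    intro i j
    simp only [n]
    by_cases h : ∃ hij : i ≠ j, ed i j hij ∉ Z
    · have h' : ∃ hij : j ≠ i, ed j i hij ∉ Z := by
        obtain ⟨hij, h⟩ := h
        exact ⟨hij.symm, by rw [hed]; exact h⟩
      rw [dif_pos h, dif_pos h', cr_swap, star_neg]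
    · have h' : ¬ ∃ hij : j ≠ i, ed j i hij ∉ Z := by
        rintro ⟨hij, h'⟩
        exact h ⟨hij.symm, by rw [hed]; exact h'⟩
      rw [dif_neg h, dif_neg h', neg_zero]
  have hn0 : ∀ i j (hij : i ≠ j), ed i j hij ∈ Z → n i j = 0 := by
    intro i j hij hZ
    simp only [n]
    rw [dif_neg]
    rintro ⟨_, h⟩
    exact h hZ
  have hn1 : ∀ i j (hij : i ≠ j), ed i j hij ∉ Z → n i j ⬝ᵥ cr (lam i) (lam j) ≠ 0 := by
    intro i j hij hZ
    simp only [n]
    rw [dif_pos ⟨hij, hZ⟩]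
    intro h0
    have h5 := hgen.1 i j hij
    apply h5
    open ComplexOrder in exact dotProduct_star_self_eq_zero.1 h0
  have hKH0 : Module.finrank ℂ ↥(KH lam (⊥ : Submodule ℂ (MvPolynomial (Fin 3) ℂ))) ≤
      m + 1 - 1 := by
    refine (Submodule.finrank_mono ?_).trans hKH
    intro ξ hξ
    simp only [KH, Submodule.mem_comap, Submodule.mem_bot] at hξ ⊢
    rw [hξ]
    exact H'.zero_mem
  have h5 := h3 (m + 1) hk H' hH'HS lam hgen hKH0 Z hZ1 hZ2 n hanti hn0 hn1
  have hlam : ∀ i, lam i ≠ 0 := by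
    intro i h0
    have : Nontrivial (Fin (m + 1)) := Fin.nontrivial_iff_two_le.2 hk
    obtain ⟨j, hj⟩ := exists_ne i
    apply hgen.1 i j hj.symm
    rw [h0]
    ext a
    fin_cases a <;> simp [cr]
  obtain ⟨M, hM, h6⟩ := h4 m H' hH'HS lam hlam n hanti
  refine ⟨M, hM, ?_⟩
  have hfin : FiniteDimensional ℂ ↥(H ⊔ tauM M) := by
    have hf1 : FiniteDimensional ℂ ↥(tauM M) := by
      unfold tauM
      have a1 : FiniteDimensional ℂ ↥(Submodule.span ℂ (Set.range fun p : Fin 3 × Fin (m + 1) =>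
        X p.1 * M.adjugate p.2 0)) := FiniteDimensional.span_of_finite ℂ (Set.finite_range _)
      have a2 : FiniteDimensional ℂ ↥(Submodule.span ℂ (Set.range fun p : Fin 3 × Fin (m + 1) =>
        X p.1 * M.adjugate 0 p.2)) := FiniteDimensional.span_of_finite ℂ (Set.finite_range _)
      exact Submodule.finiteDimensional_sup _ _
    exact Submodule.finiteDimensional_sup _ _
  have hmono : H' ⊔ tauM M ≤ H ⊔ tauM M := sup_le_sup_right hH'le _
  have h7 : Module.finrank ℂ ↥(H' ⊔ tauM M) ≤ Module.finrank ℂ ↥(H ⊔ tauM M) :=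
    Submodule.finrank_mono hmono
  rw [e4] at h5
  -- two cases
  rcases le_total (Module.finrank ℂ ↥H) ((m + 3).choose 2 - (4 * m + 2)) with hc | hc
  · rw [min_eq_left hc] at hH'dim
    exact (min_le_right _ _).trans (by omega)
  · rw [min_eq_right hc] at hH'dim
    exact (min_le_left _ _).trans (by omega)

end Pool.Agent.Helper68.DS
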